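import Mathlib

set_option autoImplicit false

/-!
Finite approximations to chains of witnesses for an analytic quasi-order.
-/

namespace Pool.Agent.H565.AQ

open Set Filter Topology

abbrev Sq := ℕ → ℕ

/-- Entries of labels. -/
abbrev Ent := List (ℕ × ℕ) × ℕ × ℕ

def colm (ψ : Sq → Sq × Sq) (As : List Sq) (j : ℕ) : List (ℕ × ℕ) :=
  As.map (fun α => ((ψ α).1 j, α j))

def lv (ε : ℕ → List (ℕ × ℕ)) (x z : Sq) : ℕ → List Ent
  | 0 => []
  | n + 1 => (ε n, x n, z n) :: lv ε x z n

def Link (ψ : Sq → Sq × Sq) (n : ℕ) : Sq → List Sq → Sq → Prop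
  | u, [], v => ∀ j < n, u j = v j
  | u, α :: As, v => (∀ j < n, u j = (ψ α).1 j) ∧ Link ψ n (ψ α).2 As v

def Val (ψ : Sq → Sq × Sq) (l : List Ent) : Prop :=
  ∃ (x z : Sq) (As : List Sq), l = lv (colm ψ As) x z l.length ∧ Link ψ l.length x As z

/-- third components agree with `z` -/
def Zc (z : Sq) : List Ent → Prop
  | [] => True
  | e :: l => e.2.2 = z l.length ∧ Zc z l

def th (α z' : Sq) : List Ent → List Ent
  | [] => []
  | e :: l => (e.1 ++ [(e.2.2, α l.length)], e.2.1, z' l.length) :: th α z' l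

@[simp] theorem lv_length (ε : ℕ → List (ℕ × ℕ)) (x z : Sq) (n : ℕ) : (lv ε x z n).length = n := by
  induction n with
  | zero => rfl
  | succ n ih => simp [lv, ih]

@[simp] theorem th_length (α z' : Sq) (l : List Ent) : (th α z' l).length = l.length := by
  induction l with
  | nil => rfl
  | cons e l ih => simp [th, ih]

theorem lv_eq_iff (ε ε' : ℕ → List (ℕ × ℕ)) (x z x' z' : Sq) (n : ℕ) :
    lv ε x z n = lv ε' x' z' n ↔ ∀ i < n, ε i = ε' i ∧ x i = x' i ∧ z i = z' i := by
  induction n with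
  | zero => simp [lv]
  | succ n ih =>
    simp only [lv, List.cons.injEq, Prod.mk.injEq, ih]
    constructor
    · rintro ⟨h1, h2⟩ i hi
      rcases Nat.lt_succ_iff_lt_or_eq.1 hi with h | rfl
      · exact h2 i h
      · exact h1
    · intro h
      exact ⟨h n (Nat.lt_succ_self n), fun i hi => h i (Nat.lt_succ_of_lt hi)⟩

theorem Link.right {ψ : Sq → Sq × Sq} {n : ℕ} {v v' : Sq} (hv : ∀ j < n, v j = v' j) :
    ∀ {As : List Sq} {u : Sq}, Link ψ n u As v → Link ψ n u As v'
  | [], u, h => fun j hj => (h j hj).trans (hv j hj)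
  | _ :: _, u, h => ⟨h.1, Link.right hv h.2⟩

theorem Link.left {ψ : Sq → Sq × Sq} {n : ℕ} {u u' v : Sq} (hu : ∀ j < n, u j = u' j) :
    ∀ {As : List Sq}, Link ψ n u As v → Link ψ n u' As v
  | [], h => fun j hj => (hu j hj).symm.trans (h j hj)
  | _ :: _, h => ⟨fun j hj => (hu j hj).symm.trans (h.1 j hj), h.2⟩

theorem Link.mono {ψ : Sq → Sq × Sq} {m n : ℕ} (hmn : m ≤ n) {v : Sq} :
    ∀ {As : List Sq} {u : Sq}, Link ψ n u As v → Link ψ m u As v
  | [], u, h => fun j hj => h j (lt_of_lt_of_le hj hmn)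
  | _ :: _, u, h => ⟨fun j hj => h.1 j (lt_of_lt_of_le hj hmn), Link.mono hmn h.2⟩

theorem Link.append {ψ : Sq → Sq × Sq} {n : ℕ} (α : Sq) :
    ∀ {As : List Sq} {u : Sq}, Link ψ n u As (ψ α).1 → Link ψ n u (As ++ [α]) (ψ α).2
  | [], u, h => ⟨h, fun _ _ => rfl⟩
  | _ :: _, u, h => ⟨h.1, Link.append α h.2⟩

theorem Zc_lv {z x z' : Sq} {ε : ℕ → List (ℕ × ℕ)} {n : ℕ} (h : Zc z (lv ε x z' n)) :
    ∀ j < n, z' j = z j := by
  induction n with
  | zero => intro j hj; omega
  | succ n ih =>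
    intro j hj
    obtain ⟨h1, h2⟩ := h
    rw [lv_length] at h1
    rcases Nat.lt_succ_iff_lt_or_eq.1 hj with h | rfl
    · exact ih h2 j h
    · exact h1

theorem th_lv (α z' x z : Sq) (ε : ℕ → List (ℕ × ℕ)) (n : ℕ) :
    th α z' (lv ε x z n) = lv (fun j => ε j ++ [(z j, α j)]) x z' n := by
  induction n with
  | zero => rfl
  | succ n ih => simp [lv, th, ih]

theorem val_refl (ψ : Sq → Sq × Sq) (z : Sq) (n : ℕ) : Val ψ (lv (fun _ => []) z z n) := by
  refine ⟨z, z, [], ?_, ?_⟩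
  · rw [lv_length]
    rfl
  · intro j _
    rfl

theorem val_th {ψ : Sq → Sq × Sq} {l : List Ent} (h : Val ψ l) (α : Sq)
    (hz : Zc (ψ α).1 l) : Val ψ (th α (ψ α).2 l) := by
  obtain ⟨x, z, As, h1, h2⟩ := h
  have hz' : ∀ j < l.length, z j = (ψ α).1 j := by
    rw [h1] at hz
    intro j hj
    exact Zc_lv hz j hj
  refine ⟨x, (ψ α).2, As ++ [α], ?_, ?_⟩
  · rw [th_length]
    conv_lhs => rw [h1]
    rw [th_lv, lv_eq_iff]
    intro i hi
    refine ⟨?_, rfl, rfl⟩
    simp only [colm, List.map_append, List.map_cons, List.map_nil, hz' i hi]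
  · rw [th_length]
    exact (h2.right hz').append α

theorem chain_sound {ψ : Sq → Sq × Sq} (hψ : Continuous ψ)
    (htrans : ∀ a b c, (∃ α, ψ α = (a, b)) → (∃ α, ψ α = (b, c)) → ∃ α, ψ α = (a, c)) (z : Sq)
    (hz : ∃ α, ψ α = (z, z)) :
    ∀ (k : ℕ) (x : Sq) (As : ℕ → List Sq) (ε : ℕ → List (ℕ × ℕ)),
      (∀ n, (As n).length = k) → (∀ n, ∀ j < n, colm ψ (As n) j = ε j) →
      (∀ n, Link ψ n x (As n) z) → ∃ α, ψ α = (x, z) := by
  intro k
  induction k with
  | zero =>
    intro x As ε hk _ hL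
    have : x = z := by
      funext j
      have h1 := hL (j + 1)
      rw [List.length_eq_zero_iff.1 (hk (j + 1))] at h1
      exact h1 j (Nat.lt_succ_self j)
    rw [this]
    exact hz
  | succ k ih =>
    intro x As ε hk hε hL
    have hcons : ∀ n, ∃ α As', As n = α :: As' ∧ As'.length = k := by
      intro n
      have := hk n
      rcases h : As n with _ | ⟨α, As'⟩
      · rw [h] at this
        simp at this
      · rw [h] at this
        exact ⟨α, As', rfl, by simpa using this⟩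
    choose a A hA hAk using hcons
    let α : Sq := fun j => ((ε j).head?.getD (0, 0)).2
    have ha : ∀ n, ∀ j < n, a n j = α j := by
      intro n j hj
      have := hε n j hj
      rw [hA n] at this
      simp only [colm, List.map_cons] at this
      simp only [α, ← this, List.head?_cons, Option.getD_some]
    have htend : Tendsto a atTop (𝓝 α) := by
      rw [tendsto_pi_nhds]
      intro j
      refine tendsto_const_nhds.congr' ?_
      filter_upwards [eventually_gt_atTop j] with n hn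
      exact (ha n j hn).symm
    have hψt : Tendsto (fun n => ψ (a n)) atTop (𝓝 (ψ α)) := (hψ.tendsto α).comp htend
    have hev : ∀ m, ∃ n, m ≤ n ∧ ∀ j < m, (ψ (a n)).1 j = (ψ α).1 j ∧ (ψ (a n)).2 j = (ψ α).2 j := by
      intro m
      have h1 : ∀ j, ∀ᶠ n in atTop, (ψ (a n)).1 j = (ψ α).1 j ∧ (ψ (a n)).2 j = (ψ α).2 j := by
        intro j
        have e1 : Tendsto (fun n => (ψ (a n)).1 j) atTop (𝓝 ((ψ α).1 j)) :=
          (((continuous_apply j).comp continuous_fst).tendsto (ψ α)).comp hψt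
        have e2 : Tendsto (fun n => (ψ (a n)).2 j) atTop (𝓝 ((ψ α).2 j)) :=
          (((continuous_apply j).comp continuous_snd).tendsto (ψ α)).comp hψt
        rw [nhds_discrete, tendsto_pure] at e1 e2
        filter_upwards [e1, e2] with n h1 h2
        exact ⟨h1, h2⟩
      have h2 : ∀ᶠ n in atTop, ∀ j ∈ Finset.range m,
          (ψ (a n)).1 j = (ψ α).1 j ∧ (ψ (a n)).2 j = (ψ α).2 j := by
        rw [Filter.eventually_all_finset]
        intro j _
        exact h1 j
      obtain ⟨n, hn1, hn2⟩ := (h2.and (eventually_ge_atTop m)).exists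
      exact ⟨n, hn2, fun j hj => hn1 j (Finset.mem_range.2 hj)⟩
    choose N hN1 hN2 using hev
    have hx : x = (ψ α).1 := by
      funext j
      have h1 := hL (N (j + 1))
      rw [hA] at h1
      rw [h1.1 j (lt_of_lt_of_le (Nat.lt_succ_self j) (hN1 (j + 1)))]
      exact (hN2 (j + 1) j (Nat.lt_succ_self j)).1
    have hrest : ∃ β, ψ β = ((ψ α).2, z) := by
      refine ih (ψ α).2 (fun m => A (N m)) (fun j => (ε j).tail) (fun m => hAk _) ?_ ?_
      · intro m j hj
        have := hε (N m) j (lt_of_lt_of_le hj (hN1 m))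
        rw [hA] at this
        rw [← this]
        simp only [colm, List.map_cons, List.tail_cons]
      · intro m
        have h1 := hL (N m)
        rw [hA] at h1
        exact (h1.2.mono (hN1 m)).left fun j hj => (hN2 m j hj).2
    refine htrans x (ψ α).2 z ⟨α, ?_⟩ hrest
    rw [hx]

theorem val_sound {ψ : Sq → Sq × Sq} (hψ : Continuous ψ)
    (htrans : ∀ a b c, (∃ α, ψ α = (a, b)) → (∃ α, ψ α = (b, c)) → ∃ α, ψ α = (a, c))
    (x z : Sq) (hz : ∃ α, ψ α = (z, z)) (ε : ℕ → List (ℕ × ℕ))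
    (h : ∀ n, Val ψ (lv ε x z n)) : ∃ α, ψ α = (x, z) := by
  choose X Z As h1 h2 using h
  simp only [lv_length] at h1 h2
  have h3 : ∀ n, ∀ i < n, ε i = colm ψ (As n) i ∧ x i = X n i ∧ z i = Z n i := by
    intro n
    exact (lv_eq_iff _ _ _ _ _ _ _).1 (h1 n)
  refine chain_sound hψ htrans z hz (ε 0).length x (fun n => As (n + 1)) ε ?_ ?_ ?_
  · intro n
    rw [(h3 (n + 1) 0 (Nat.succ_pos n)).1]
    simp [colm]
  · intro n j hj
    exact (h3 (n + 1) j (Nat.lt_succ_of_lt hj)).1.symm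
  · intro n
    refine Link.mono (Nat.le_succ n) ?_
    refine Link.left (u := X (n + 1)) (fun j hj => (h3 (n + 1) j hj).2.1.symm) ?_
    refine Link.right (v := Z (n + 1)) (fun j hj => (h3 (n + 1) j hj).2.2.symm) ?_
    exact h2 (n + 1)

end Pool.Agent.H565.AQ
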