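import Mathlib

set_option autoImplicit false

/-!
Back-and-forth lemma for relational structures, with a parameter `D` bounding the visible part of
the language.
-/

namespace Pool.Agent.H565.AQ

open FirstOrder FirstOrder.Language

/-- Binary relational language with symbols indexed by `ℕ`. -/
abbrev Lg : FirstOrder.Language :=
  FirstOrder.Language.mk (fun _ => PEmpty.{1}) (fun n => {_i : ℕ // 2 = n})

/-- Structure given by a function `u`. -/
abbrev St (U : Type) (u : ℕ → (Fin 2 → U) → Bool) : Lg.Structure U :=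
  @FirstOrder.Language.Structure.mk Lg U (fun f _ => PEmpty.elim f)
    (fun r xs => u (Subtype.val r) (xs ∘ Fin.cast (Subtype.property r)) = true)

/-- A family of systems of partial isomorphisms. -/
structure BF {U V : Type} (u : ℕ → (Fin 2 → U) → Bool) (v : ℕ → (Fin 2 → V) → Bool)
    (S : ℕ → Set (U × V) → Prop) : Prop where
  mono : ∀ D E p, D ≤ E → S E p → S D p
  eq : ∀ D p a b a' b', S D p → (a, b) ∈ p → (a', b') ∈ p → (a = a' ↔ b = b')
  rel : ∀ i, ∃ D, ∀ p a b a' b', S D p → (a, b) ∈ p → (a', b') ∈ p →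
    (u i ![a, a'] = true ↔ v i ![b, b'] = true)
  forth : ∀ D p a, S D p → ∃ b, ∃ p', S D p' ∧ p ⊆ p' ∧ (a, b) ∈ p'
  back : ∀ D p b, S D p → ∃ a, ∃ p', S D p' ∧ p ⊆ p' ∧ (a, b) ∈ p'

theorem vec2 {U : Type} (f : Fin 2 → U) : ![f 0, f 1] = f := by
  funext i
  fin_cases i <;> rfl

theorem BF.realize {U V : Type} {u : ℕ → (Fin 2 → U) → Bool} {v : ℕ → (Fin 2 → V) → Bool}
    {S : ℕ → Set (U × V) → Prop} (h : BF u v S) {α : Type} {n : ℕ}
    (φ : Lg.BoundedFormula α n) :
    ∃ D, ∀ p, S D p → ∀ (x : α → U) (y : α → V) (xs : Fin n → U) (ys : Fin n → V),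
      (∀ i, (x i, y i) ∈ p) → (∀ i, (xs i, ys i) ∈ p) →
      ((@BoundedFormula.Realize Lg U (St U u) α n φ x xs) ↔
        (@BoundedFormula.Realize Lg V (St V v) α n φ y ys)) := by
  letI := St U u
  letI := St V v
  induction φ with
  | falsum => exact ⟨0, fun p _ x y xs ys _ _ => Iff.rfl⟩
  | equal t₁ t₂ =>
    refine ⟨0, fun p hp x y xs ys hx hxs => ?_⟩
    have key : ∀ t : Lg.Term (α ⊕ Fin _), (t.realize (Sum.elim x xs), t.realize (Sum.elim y ys)) ∈ p := by
      intro t
      cases t with
      | var i =>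
        cases i with
        | inl i => exact hx i
        | inr i => exact hxs i
      | func f _ => exact PEmpty.elim f
    exact h.eq 0 p _ _ _ _ hp (key t₁) (key t₂)
  | rel R ts =>
    obtain ⟨i, hi⟩ := R
    subst hi
    obtain ⟨D, hD⟩ := h.rel i
    refine ⟨D, fun p hp x y xs ys hx hxs => ?_⟩
    have key : ∀ t : Lg.Term (α ⊕ Fin _), (t.realize (Sum.elim x xs), t.realize (Sum.elim y ys)) ∈ p := by
      intro t
      cases t with
      | var i =>
        cases i with
        | inl i => exact hx i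
        | inr i => exact hxs i
      | func f _ => exact PEmpty.elim f
    have := hD p _ _ _ _ hp (key (ts 0)) (key (ts 1))
    have e1 : ![(ts 0).realize (Sum.elim x xs), (ts 1).realize (Sum.elim x xs)] =
      fun i => (ts i).realize (Sum.elim x xs) := vec2 (fun i => (ts i).realize (Sum.elim x xs))
    have e2 : ![(ts 0).realize (Sum.elim y ys), (ts 1).realize (Sum.elim y ys)] =
      fun i => (ts i).realize (Sum.elim y ys) := vec2 (fun i => (ts i).realize (Sum.elim y ys))
    rw [e1, e2] at this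
    exact this
  | imp f₁ f₂ ih₁ ih₂ =>
    obtain ⟨D₁, h₁⟩ := ih₁
    obtain ⟨D₂, h₂⟩ := ih₂
    refine ⟨max D₁ D₂, fun p hp x y xs ys hx hxs => ?_⟩
    have e₁ := h₁ p (h.mono _ _ _ (le_max_left _ _) hp) x y xs ys hx hxs
    have e₂ := h₂ p (h.mono _ _ _ (le_max_right _ _) hp) x y xs ys hx hxs
    simp only [BoundedFormula.realize_imp]
    rw [e₁, e₂]
  | all f ih =>
    obtain ⟨D, hD⟩ := ih
    refine ⟨D, fun p hp x y xs ys hx hxs => ?_⟩
    simp only [BoundedFormula.realize_all]
    constructor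
    · intro H b
      obtain ⟨a, p', hp', hsub, hab⟩ := h.back D p b hp
      refine (hD p' hp' x y (Fin.snoc xs a) (Fin.snoc ys b) (fun i => hsub (hx i)) ?_).1 (H a)
      intro i
      refine Fin.lastCases ?_ (fun i => ?_) i
      · simpa using hab
      · simpa using hsub (hxs i)
    · intro H a
      obtain ⟨b, p', hp', hsub, hab⟩ := h.forth D p a hp
      refine (hD p' hp' x y (Fin.snoc xs a) (Fin.snoc ys b) (fun i => hsub (hx i)) ?_).2 (H b)
      intro i
      refine Fin.lastCases ?_ (fun i => ?_) i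
      · simpa using hab
      · simpa using hsub (hxs i)

/-- A map all of whose finite restrictions extend to members of the systems is elementary. -/
theorem BF.elementary {U V : Type} {u : ℕ → (Fin 2 → U) → Bool} {v : ℕ → (Fin 2 → V) → Bool}
    {S : ℕ → Set (U × V) → Prop} (h : BF u v S) (f : U → V)
    (hf : ∀ D (s : Finset U), ∃ p, S D p ∧ ∀ a ∈ s, (a, f a) ∈ p) :
    Nonempty (@FirstOrder.Language.ElementaryEmbedding Lg U V (St U u) (St V v)) := by
  classical
  letI := St U u
  letI := St V v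
  refine ⟨⟨f, ?_⟩⟩
  intro n φ x
  obtain ⟨D, hD⟩ := h.realize φ
  obtain ⟨p, hp, hps⟩ := hf D (Finset.univ.image x)
  have := hD p hp x (f ∘ x) (default : Fin 0 → U) (default : Fin 0 → V)
    (fun i => hps _ (Finset.mem_image_of_mem _ (Finset.mem_univ _))) (fun i => i.elim0)
  rw [Formula.Realize, Formula.Realize]
  have e1 : (default : Fin 0 → U) = default := rfl
  convert this.symm using 2
  
end Pool.Agent.H565.AQ
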