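import Pool.Agent.H565.AQ.Tree
import Pool.Agent.H565.AQ.Chain

set_option autoImplicit false

/-!
The class of structures (`Good`) coding points of an analytic quasi-order.
-/

namespace Pool.Agent.H565.AQ

open Set

variable {U V : Type}

abbrev R3 (U : Type) := ℕ → ℕ → U → U → Prop

def Dp (E : R3 U) : ℕ → U → Prop
  | 0, a => ∃ b, E 0 0 a b
  | n + 1, b => ∃ a, E n 0 a b

def ChE (E : R3 U) (a b : U) : Prop := ∃ d, E d 0 a b
def ColE (E : R3 U) (j : ℕ) (a b : U) : Prop := ∃ d, E d (j + 1) a b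
def InfE (E : R3 U) (a b : U) : Prop := ChE E a b ∧ ∀ j, ¬ ColE E j a b
def Off (E : R3 U) (a : U) : Prop := ∀ b, ¬ InfE E a b
def Top (E : R3 U) (a : U) : Prop := {b | InfE E a b}.Infinite
def Ex (E : R3 U) (k : ℕ) (a : U) : Prop := ∃ s : Finset U, s.card = k ∧ ∀ b, b ∈ s ↔ InfE E a b
def Lab (E : R3 U) (a : U) (l : List Ent) : Prop :=
  ∃ c, InfE E a c ∧ Ex E (Encodable.encode l + 1) c

structure TreeAx (E : R3 U) : Prop where
  t1 : ∃ r, Dp E 0 r ∧ ∀ r', Dp E 0 r' → r' = r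
  t2 : ∀ b, ∃ n, Dp E n b ∧ ∀ m, Dp E m b → m = n
  t3 : ∀ n a b, E n 0 a b → Dp E n a
  t4 : ∀ n a a' b, E n 0 a b → E n 0 a' b → a = a'
  t5 : ∀ n c a b, E n (c + 1) a b → E n 0 a b
  t6 : ∀ n c c' a b, E n (c + 1) a b → E n (c' + 1) a b → c = c'
  t7 : ∀ a j, {b | ColE E j a b}.Infinite

structure Good (ψ : Sq → Sq × Sq) (E : R3 U) (z : Sq) : Prop where
  tree : TreeAx E
  b1 : ∃ r, Dp E 0 r ∧ Lab E r []
  b2 : ∀ a b, Off E a → ChE E a b → Off E b
  b3 : ∀ a l c b, Lab E a l → InfE E a c → ChE E c b → Off E b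
  b4 : ∀ a l, Lab E a l → {c | InfE E a c ∧ Top E c}.Infinite
  b5 : ∀ a l c, Lab E a l → InfE E a c → Ex E (Encodable.encode l + 1) c ∨ Top E c
  b6 : ∀ a l b j, Lab E a l → ColE E j a b → Off E b ∨
    ∃ ε : List (ℕ × ℕ), Lab E b ((ε, j, z l.length) :: l) ∧ Val ψ ((ε, j, z l.length) :: l)
  b7 : ∀ a (l : List Ent) (ε : List (ℕ × ℕ)) j, Lab E a l → Val ψ ((ε, j, z l.length) :: l) →
    {b | ColE E j a b ∧ Lab E b ((ε, j, z l.length) :: l)}.Infinite

theorem TreeAx.exists_TD {E : R3 U} (h : TreeAx E) :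
    ∃ T : TD U, (∀ d c a b, E d c a b ↔ T.E d c a b) ∧ T.Br := by
  classical
  obtain ⟨r, hr, hru⟩ := h.t1
  choose dep hdep hdepu using h.t2
  have hpar : ∀ b, ∃ a, ∀ d a', E d 0 a' b → a' = a := by
    intro b
    by_cases hb : ∃ d a, E d 0 a b
    · obtain ⟨d, a, hab⟩ := hb
      refine ⟨a, fun d' a' h' => ?_⟩
      have e1 : d + 1 = dep b := hdepu b (d + 1) ⟨a, hab⟩
      have e2 : d' + 1 = dep b := hdepu b (d' + 1) ⟨a', h'⟩
      have e3 : d' = d := by omega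
      subst e3
      exact h.t4 _ _ _ _ h' hab
    · exact ⟨b, fun d a' h' => absurd ⟨d, a', h'⟩ hb⟩
  choose par hpar using hpar
  have hcol : ∀ b, ∃ c : Option ℕ, ∀ j, c = some j ↔ ∃ d a, E d (j + 1) a b := by
    intro b
    by_cases hb : ∃ j d a, E d (j + 1) a b
    · obtain ⟨j, d, a, hab⟩ := hb
      refine ⟨some j, fun j' => ?_⟩
      constructor
      · intro e
        simp only [Option.some.injEq] at e
        subst e
        exact ⟨d, a, hab⟩
      · rintro ⟨d', a', h'⟩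
        have e1 : d + 1 = dep b := hdepu b (d + 1) ⟨a, h.t5 _ _ _ _ hab⟩
        have e2 : d' + 1 = dep b := hdepu b (d' + 1) ⟨a', h.t5 _ _ _ _ h'⟩
        have e3 : d' = d := by omega
        subst e3
        have e4 : a' = a := h.t4 _ _ _ _ (h.t5 _ _ _ _ h') (h.t5 _ _ _ _ hab)
        subst e4
        rw [h.t6 _ _ _ _ _ hab h']
    · refine ⟨none, fun j => ?_⟩
      constructor
      · intro e
        simp at e
      · rintro ⟨d, a, h'⟩
        exact absurd ⟨j, d, a, h'⟩ hb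
  choose col hcol using hcol
  let T : TD U :=
    { root := r
      dep := dep
      par := par
      col := col
      dep_root := (hdepu r 0 hr).symm
      root_of := by
        intro a ha
        apply hru
        rw [← ha]
        exact hdep a
      dep_par := by
        intro b n hb
        have h1 : Dp E (n + 1) b := by
          rw [← hb]
          exact hdep b
        obtain ⟨a, ha⟩ := h1
        rw [← hpar b n a ha]
        exact (hdepu a n (h.t3 _ _ _ ha)).symm }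
  have hT : ∀ d c a b, E d c a b ↔ T.E d c a b := by
    intro d c a b
    have h0 : E d 0 a b ↔ (dep a = d ∧ dep b = d + 1 ∧ par b = a) := by
      constructor
      · intro hab
        exact ⟨(hdepu a d (h.t3 _ _ _ hab)).symm, (hdepu b (d + 1) ⟨a, hab⟩).symm,
          (hpar b d a hab).symm⟩
      · rintro ⟨h1, h2, h3⟩
        have h4 : Dp E (d + 1) b := by
          rw [← h2]
          exact hdep b
        obtain ⟨a', ha'⟩ := h4
        rw [← h3, ← hpar b d a' ha']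
        exact ha'
    rcases c with _ | j
    · rw [h0]
      constructor
      · intro h1
        refine ⟨h1, fun j hj => ?_⟩
        omega
      · intro h1
        exact h1.1
    · constructor
      · intro h1
        refine ⟨h0.1 (h.t5 _ _ _ _ h1), fun j' hj' => ?_⟩
        have : j' = j := by omega
        subst this
        exact (hcol b j').2 ⟨d, a, h1⟩
      · rintro ⟨h1, h2⟩
        obtain ⟨d', a', h3⟩ := (hcol b j).1 (h2 j rfl)
        have e2 : d' + 1 = dep b := hdepu b (d' + 1) ⟨a', h.t5 _ _ _ _ h3⟩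
        have e3 : d' = d := by
          have := h1.2.1
          change dep b = d + 1 at this
          omega
        subst e3
        have e4 : a' = a := h.t4 _ _ _ _ (h.t5 _ _ _ _ h3) (h0.2 h1)
        subst e4
        exact h3
  refine ⟨T, hT, ?_⟩
  intro a j
  refine (h.t7 a j).mono ?_
  rintro b ⟨d, hb⟩
  have h1 := (hT _ _ _ _).1 hb
  refine ⟨⟨?_, h1.1.2.2⟩, h1.2 j rfl⟩
  rw [h1.1.2.1, h1.1.1]

section
variable {E : R3 U} {T : TD U} (hT : ∀ d c a b, E d c a b ↔ T.E d c a b)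
include hT

theorem chE_iff (a b : U) : ChE E a b ↔ T.Ch a b := by
  constructor
  · rintro ⟨d, h⟩
    obtain ⟨⟨h1, h2, h3⟩, _⟩ := (hT _ _ _ _).1 h
    exact ⟨by rw [h2, h1], h3⟩
  · rintro ⟨h1, h2⟩
    exact ⟨T.dep a, (hT _ _ _ _).2 ⟨⟨rfl, h1, h2⟩, fun j hj => by omega⟩⟩

theorem colE_iff (j : ℕ) (a b : U) : ColE E j a b ↔ T.Ch a b ∧ T.col b = some j := by
  constructor
  · rintro ⟨d, h⟩
    obtain ⟨⟨h1, h2, h3⟩, h4⟩ := (hT _ _ _ _).1 h
    exact ⟨⟨by rw [h2, h1], h3⟩, h4 j rfl⟩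
  · rintro ⟨⟨h1, h2⟩, h3⟩
    refine ⟨T.dep a, (hT _ _ _ _).2 ⟨⟨rfl, h1, h2⟩, fun j' hj => ?_⟩⟩
    rw [h3]
    congr 1
    omega

theorem infE_iff (a b : U) : InfE E a b ↔ T.Ch a b ∧ T.col b = none := by
  unfold InfE
  rw [chE_iff hT]
  simp only [colE_iff hT]
  constructor
  · rintro ⟨h1, h2⟩
    refine ⟨h1, ?_⟩
    rcases h : T.col b with _ | j
    · rfl
    · exact absurd ⟨h1, h⟩ (h2 j)
  · rintro ⟨h1, h2⟩
    refine ⟨h1, fun j hj => ?_⟩
    rw [h2] at hj
    exact absurd hj.2 (by simp)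
end

theorem Ex.not_top {E : R3 U} {k : ℕ} {a : U} (h : Ex E k a) : ¬ Top E a := by
  obtain ⟨s, _, hs⟩ := h
  intro ht
  apply ht
  have : {b | InfE E a b} = (s : Set U) := by
    ext b
    exact (hs b).symm
  rw [this]
  exact s.finite_toSet

theorem Ex.unique {E : R3 U} {k k' : ℕ} {a : U} (h : Ex E k a) (h' : Ex E k' a) : k = k' := by
  obtain ⟨s, h1, hs⟩ := h
  obtain ⟨s', h1', hs'⟩ := h'
  have : s = s' := by
    ext b
    rw [hs, hs']
  rw [← h1, ← h1', this]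

theorem Good.lab_unique {ψ : Sq → Sq × Sq} {E : R3 U} {z : Sq} (h : Good ψ E z) {a : U}
    {l l' : List Ent} (h1 : Lab E a l) (h2 : Lab E a l') : l = l' := by
  obtain ⟨c, hc, hc2⟩ := h2
  rcases h.b5 a l c h1 hc with h3 | h3
  · have := h3.unique hc2
    exact Encodable.encode_injective (by omega)
  · exact absurd h3 hc2.not_top

theorem Lab.not_off {E : R3 U} {a : U} {l : List Ent} (h : Lab E a l) : ¬ Off E a := by
  obtain ⟨c, hc, _⟩ := h
  exact fun h => h c hc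

theorem Good.root_lab {ψ : Sq → Sq × Sq} {E : R3 U} {z : Sq} (h : Good ψ E z) {r : U}
    (hr : Dp E 0 r) : Lab E r [] := by
  obtain ⟨r0, h0, h1⟩ := h.b1
  obtain ⟨r1, _, h2⟩ := h.tree.t1
  rw [h2 r hr, ← h2 r0 h0]
  exact h1

theorem Good.exists_emb {ψ : Sq → Sq × Sq} {E E' : R3 ℕ} {z z' : Sq} (h : Good ψ E z)
    (h' : Good ψ E' z') {T T' : TD ℕ} (hT : ∀ d c a b, E d c a b ↔ T.E d c a b)
    (hT' : ∀ d c a b, E' d c a b ↔ T'.E d c a b) (hB' : T'.Br) {α : Sq} (hα : ψ α = (z, z')) :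
    ∃ g : ℕ → ℕ, T.Emb T' g := by
  have hroot : ∀ (E : R3 ℕ) (z : Sq) (T : TD ℕ), Good ψ E z →
      (∀ d c a b, E d c a b ↔ T.E d c a b) → Dp E 0 T.root := by
    intro E z T h hT
    obtain ⟨r, ⟨b, hb⟩, _⟩ := h.tree.t1
    have := ((hT _ _ _ _).1 hb).1.1
    rw [T.root_of r this] at hb
    exact ⟨b, hb⟩
  refine _root_.Pool.Agent.H565.AQ.exists_emb T T' (fun a a' => Off E a ∨
    (∃ l, Zc z l ∧ Lab E a l ∧ Lab E' a' (th α z' l)) ∨
    ((∃ p l, Lab E p l ∧ InfE E p a) ∧ Top E' a')) ?_ ?_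
  · exact Or.inr (Or.inl ⟨[], trivial, h.root_lab (hroot E z T h hT),
      h'.root_lab (hroot E' z' T' h' hT')⟩)
  · rintro a a' hr b hab
    rcases hr with h1 | ⟨l, hz, hl, hl'⟩ | ⟨⟨p, l, hl, hpa⟩, htop⟩
    · rcases hc : T.col b with _ | j
      · exact absurd ((infE_iff hT _ _).2 ⟨hab, hc⟩) (h1 b)
      · refine (hB' a' j).mono ?_
        rintro b' ⟨k1, k2⟩
        exact ⟨k1, k2, Or.inl (h.b2 a b h1 ((chE_iff hT _ _).2 hab))⟩
    · rcases hc : T.col b with _ | j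
      · refine (h'.b4 a' _ hl').mono ?_
        rintro c ⟨hc1, hc2⟩
        obtain ⟨k1, k2⟩ := (infE_iff hT' _ _).1 hc1
        exact ⟨k1, k2, Or.inr (Or.inr ⟨⟨a, l, hl, (infE_iff hT _ _).2 ⟨hab, hc⟩⟩, hc2⟩)⟩
      · rcases h.b6 a l b j hl ((colE_iff hT _ _ _).2 ⟨hab, hc⟩) with h1 | ⟨ε, h1, h2⟩
        · refine (hB' a' j).mono ?_
          rintro b' ⟨k1, k2⟩
          exact ⟨k1, k2, Or.inl h1⟩
        · have hz2 : Zc z ((ε, j, z l.length) :: l) := ⟨rfl, hz⟩
          have h3 := val_th h2 α (by rw [hα]; exact hz2)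
          rw [hα] at h3
          have h4 := h'.b7 a' (th α z' l) (ε ++ [(z l.length, α l.length)]) j hl' (by
            rw [th_length]
            exact h3)
          refine h4.mono ?_
          rintro b' ⟨k1, k2⟩
          obtain ⟨k3, k4⟩ := (colE_iff hT' _ _ _).1 k1
          refine ⟨k3, k4, Or.inr (Or.inl ⟨_, hz2, h1, ?_⟩)⟩
          rw [th_length] at k2
          exact k2
    · have hoff : Off E b := h.b3 p l a b hl hpa ((chE_iff hT _ _).2 hab)
      rcases hc : T.col b with _ | j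
      · refine htop.mono ?_
        rintro b' hb'
        obtain ⟨k1, k2⟩ := (infE_iff hT' _ _).1 hb'
        exact ⟨k1, k2, Or.inl hoff⟩
      · refine (hB' a' j).mono ?_
        rintro b' ⟨k1, k2⟩
        exact ⟨k1, k2, Or.inl hoff⟩

theorem Good.sound {ψ : Sq → Sq × Sq} (hψ : Continuous ψ)
    (htrans : ∀ a b c, (∃ α, ψ α = (a, b)) → (∃ α, ψ α = (b, c)) → ∃ α, ψ α = (a, c))
    {E : R3 U} {E' : R3 V} {z z' : Sq} (h : Good ψ E z)
    (h' : Good ψ E' z') (hz : ∃ α, ψ α = (z', z')) (f : U → V)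
    (hf : ∀ d c a b, E d c a b ↔ E' d c (f a) (f b)) : ∃ α, ψ α = (z, z') := by
  classical
  have hch : ∀ a b, ChE E a b ↔ ChE E' (f a) (f b) := fun a b =>
    exists_congr fun d => hf d 0 a b
  have hcol : ∀ j a b, ColE E j a b ↔ ColE E' j (f a) (f b) := fun j a b =>
    exists_congr fun d => hf d (j + 1) a b
  have hinf : ∀ a b, InfE E a b → InfE E' (f a) (f b) := fun a b hab =>
    ⟨(hch a b).1 hab.1, fun j hj => hab.2 j ((hcol j a b).2 hj)⟩
  let St : ℕ → Type := fun n =>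
    {p : U × List Ent // Lab E p.1 (lv (fun _ => []) z z n) ∧ Lab E' (f p.1) p.2 ∧ p.2.length = n}
  have step : ∀ n (s : St n), ∃ s' : St (n + 1), ∃ ε : List (ℕ × ℕ),
      s'.1.2 = (ε, z n, z' n) :: s.1.2 ∧ Val ψ s'.1.2 := by
    rintro n ⟨⟨a, l'⟩, h1, h2, h3⟩
    simp only at h1 h2 h3
    have hv : Val ψ (([], z n, z (lv (fun _ => []) z z n).length) :: lv (fun _ => []) z z n) := by
      rw [lv_length]
      exact val_refl ψ z (n + 1)
    obtain ⟨b, hb1, hb2⟩ := (h.b7 a (lv (fun _ => []) z z n) [] (z n) h1 hv).nonempty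
    rw [lv_length] at hb2
    have hb3 : ColE E' (z n) (f a) (f b) := (hcol _ _ _).1 hb1
    rcases h'.b6 (f a) l' (f b) (z n) h2 hb3 with h4 | ⟨ε, h4, h5⟩
    · obtain ⟨c, hc, _⟩ := hb2
      exact absurd (hinf b c hc) (h4 (f c))
    · rw [h3] at h4 h5
      exact ⟨⟨(b, (ε, z n, z' n) :: l'), hb2, h4, by simp [h3]⟩, ε, rfl, h5⟩
  choose next ε hn1 hn2 using step
  have hbase : Nonempty (St 0) := by
    obtain ⟨r, hr, hl⟩ := h.b1
    have hr' : Dp E' 0 (f r) := by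
      obtain ⟨b, hb⟩ := hr
      exact ⟨f b, (hf _ _ _ _).1 hb⟩
    exact ⟨⟨(r, []), hl, h'.root_lab hr', rfl⟩⟩
  let seq : ∀ n, St n := fun n => Nat.rec hbase.some (fun n s => next n s) n
  have hseq : ∀ n, seq (n + 1) = next n (seq n) := fun n => rfl
  have hlv : ∀ n, (seq n).1.2 = lv (fun n => ε n (seq n)) z z' n := by
    intro n
    induction n with
    | zero => exact List.length_eq_zero_iff.1 (seq 0).2.2.2
    | succ n ih =>
      rw [hseq, hn1, ih]
      rfl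
  refine val_sound hψ htrans z z' hz (fun n => ε n (seq n)) ?_
  intro n
  rcases n with _ | n
  · have h1 := val_refl ψ z 0
    exact h1
  · rw [← hlv, hseq]
    exact hn2 n (seq n)

end Pool.Agent.H565.AQ
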