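import Pool.Agent.H565.AQ.Std

set_option autoImplicit false

/-!
Every analytic quasi-order on a Polish space is Borel bireducible with elementary embeddability on
an invariant Borel class of countable structures.
-/

namespace Pool.Agent.H565.AQ

open Set MeasureTheory

theorem eu_rep {u : SP} {T : TD ℕ} (h : ∀ d c a b, Eu u d c a b ↔ T.E d c a b) : Rep u T := by
  intro i a b
  rw [← h]
  unfold Eu
  rw [Nat.pair_unpair]

/-- elementary embeddability between good structures -/
theorem good_iff {ψ : Sq → Sq × Sq} (hψ : Continuous ψ)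
    (htrans : ∀ a b c, (∃ α, ψ α = (a, b)) → (∃ α, ψ α = (b, c)) → ∃ α, ψ α = (a, c))
    {u v : SP} {z z' : Sq} (hu : Good ψ (Eu u) z) (hv : Good ψ (Eu v) z')
    (hz : ∃ α, ψ α = (z', z')) :
    Nonempty (@FirstOrder.Language.ElementaryEmbedding Lg ℕ ℕ (St ℕ u) (St ℕ v)) ↔
      ∃ α, ψ α = (z, z') := by
  constructor
  · rintro ⟨F⟩
    have h : ∃ f : ℕ → ℕ, ∀ i (x : Fin 2 → ℕ), v i (f ∘ x) = true ↔ u i x = true := by
      refine ⟨@FirstOrder.Language.ElementaryEmbedding.toFun Lg ℕ ℕ (St ℕ u) (St ℕ v) F, ?_⟩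
      intro i x
      exact @FirstOrder.Language.ElementaryEmbedding.map_rel Lg ℕ ℕ (St ℕ u) (St ℕ v) F 2
        ⟨i, rfl⟩ x
    obtain ⟨f, hf⟩ := h
    refine hu.sound hψ htrans hv hz f ?_
    intro d c a b
    have h2 : f ∘ ![a, b] = ![f a, f b] := by
      funext i
      fin_cases i <;> rfl
    have h3 := hf (Nat.pair d c) ![a, b]
    rw [h2] at h3
    exact h3.symm
  · rintro ⟨α, hα⟩
    obtain ⟨T, hT, hB⟩ := hu.tree.exists_TD
    obtain ⟨T', hT', hB'⟩ := hv.tree.exists_TD
    obtain ⟨g, hg⟩ := hu.exists_emb hv hT hT' hB' hα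
    exact hg.elementary (eu_rep hT) (eu_rep hT') hB hB'

/-- code of the standard structure on `ℕ` -/
noncomputable def fz (ψ : Sq → Sq × Sq) (z : Sq) : SP := by
  classical
  exact fun i v => decide (Ez ψ z i.unpair.1 i.unpair.2
    ((Denumerable.eqv (List ℕ)).symm (v 0)) ((Denumerable.eqv (List ℕ)).symm (v 1)))

theorem fz_good (ψ : Sq → Sq × Sq) (z : Sq) : Good ψ (Eu (fz ψ z)) z := by
  refine Good.tr (E' := Ez ψ z) (Denumerable.eqv (List ℕ)).symm ?_ (ez_good ψ z)
  intro d c a b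
  unfold Eu fz
  refine (@decide_eq_true_iff _ (Classical.propDecidable _)).trans ?_
  rw [Nat.unpair_pair]
  rfl

theorem fz_meas (ψ : Sq → Sq × Sq) : Measurable (fz ψ) := by
  classical
  rw [measurable_pi_iff]
  intro i
  rw [measurable_pi_iff]
  intro v
  unfold fz
  refine Measurable.comp (g := fun p : Prop => (decide p : Bool)) Measurable.of_discrete ?_
  exact ez_meas ψ _ _ _ _

theorem eu_perm (u : SP) (σ : Equiv.Perm ℕ) (d c a b : ℕ) :
    Eu (fun i v => u i (σ ∘ v)) d c a b ↔ Eu u d c (σ a) (σ b) := by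
  unfold Eu
  have : σ ∘ ![a, b] = ![σ a, σ b] := by
    funext i
    fin_cases i <;> rfl
  simp only [this]

theorem good_perm {ψ : Sq → Sq × Sq} {z : Sq} (u : SP) (σ : Equiv.Perm ℕ) :
    Good ψ (Eu u) z ↔ Good ψ (Eu (fun i v => u i (σ ∘ v))) z := by
  constructor
  · intro h
    exact h.tr σ (eu_perm u σ)
  · intro h
    refine h.tr σ.symm ?_
    intro d c a b
    rw [eu_perm]
    simp

theorem main (X : Type) [TopologicalSpace X] [PolishSpace X] [MeasurableSpace X] [BorelSpace X]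
    [Nonempty X]
    (R : X → X → Prop) (hrefl : ∀ x, R x x) (htr : ∀ x y z, R x y → R y z → R x z)
    (hR : MeasureTheory.AnalyticSet {p : X × X | R p.1 p.2}) :
    ∃ B : Set SP,
      MeasurableSet B ∧
      (∀ (σ : Equiv.Perm ℕ) (u : SP), u ∈ B ↔ (fun i v => u i (σ ∘ v)) ∈ B) ∧
      (∃ f : X → SP, Measurable f ∧ (∀ x, f x ∈ B) ∧
        ∀ x y, R x y ↔
          Nonempty (@FirstOrder.Language.ElementaryEmbedding Lg ℕ ℕ (St ℕ (f x)) (St ℕ (f y)))) ∧
      (∃ g : B → X, Measurable g ∧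
        ∀ u v : B,
          Nonempty (@FirstOrder.Language.ElementaryEmbedding Lg ℕ ℕ (St ℕ u.1) (St ℕ v.1))
          ↔ R (g u) (g v)) := by
  classical
  -- an injection into Baire space
  obtain ⟨e, he, hinj⟩ : ∃ e : X → Sq, Measurable e ∧ Function.Injective e := by
    obtain ⟨e0, h0, h1⟩ := MeasurableSpace.measurable_injection_nat_bool_of_countablySeparated X
    refine ⟨fun x n => (e0 x n).toNat, ?_, ?_⟩
    · rw [measurable_pi_iff]
      intro n
      exact (Measurable.of_discrete (f := Bool.toNat)).comp ((measurable_pi_apply n).comp h0)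
    · intro x y hxy
      apply h1
      funext n
      have h2 : (e0 x n).toNat = (e0 y n).toNat := congrFun hxy n
      revert h2
      cases e0 x n <;> cases e0 y n <;> simp
  have hemb : MeasurableEmbedding e := he.measurableEmbedding hinj
  -- the pushed forward relation is analytic
  have hR' : AnalyticSet {p : Sq × Sq | ∃ x y, p = (e x, e y) ∧ R x y} := by
    rw [analyticSet_iff_exists_polishSpace_range] at hR
    obtain ⟨β, _, _, φ, hφ, hrange⟩ := hR
    let _ : MeasurableSpace β := borel β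
    have : BorelSpace β := ⟨rfl⟩
    have h1 : Measurable fun b : β => ((e (φ b).1, e (φ b).2) : Sq × Sq) :=
      (he.comp (measurable_fst.comp hφ.measurable)).prodMk
        (he.comp (measurable_snd.comp hφ.measurable))
    have h2 := MeasurableSet.univ.analyticSet_image (s := (Set.univ : Set β)) h1
    convert h2 using 1
    ext p
    constructor
    · rintro ⟨x, y, rfl, hxy⟩
      have : (x, y) ∈ range φ := by
        rw [hrange]
        exact hxy
      obtain ⟨b, hb⟩ := this
      exact ⟨b, mem_univ _, by simp only [hb]⟩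
    · rintro ⟨b, _, rfl⟩
      refine ⟨(φ b).1, (φ b).2, rfl, ?_⟩
      have : φ b ∈ range φ := ⟨b, rfl⟩
      rw [hrange] at this
      exact this
  obtain ⟨ψ, hψ, hψr⟩ : ∃ ψ : Sq → Sq × Sq, Continuous ψ ∧
      range ψ = {p : Sq × Sq | ∃ x y, p = (e x, e y) ∧ R x y} := by
    rw [AnalyticSet] at hR'
    rcases hR' with h | h
    · exfalso
      have x := Classical.arbitrary X
      have h1 : (e x, e x) ∈ {p : Sq × Sq | ∃ x y, p = (e x, e y) ∧ R x y} := ⟨x, x, rfl, hrefl x⟩
      rw [h] at h1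
      exact h1
    · exact h
  have key : ∀ x y, (∃ α, ψ α = (e x, e y)) ↔ R x y := by
    intro x y
    constructor
    · rintro ⟨α, hα⟩
      have h1 : ψ α ∈ range ψ := ⟨α, rfl⟩
      rw [hψr, hα] at h1
      obtain ⟨x', y', h2, h3⟩ := h1
      simp only [Prod.mk.injEq] at h2
      rw [hinj h2.1, hinj h2.2]
      exact h3
    · intro h
      have h1 : (e x, e y) ∈ range ψ := by
        rw [hψr]
        exact ⟨x, y, rfl, h⟩
      exact h1
  have htrans : ∀ a b c, (∃ α, ψ α = (a, b)) → (∃ α, ψ α = (b, c)) → ∃ α, ψ α = (a, c) := by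
    rintro a b c ⟨α, hα⟩ ⟨β, hβ⟩
    have h1 : ψ α ∈ range ψ := ⟨α, rfl⟩
    have h2 : ψ β ∈ range ψ := ⟨β, rfl⟩
    rw [hψr, hα] at h1
    rw [hψr, hβ] at h2
    obtain ⟨x, y, h3, h4⟩ := h1
    obtain ⟨y', w, h5, h6⟩ := h2
    simp only [Prod.mk.injEq] at h3 h5
    obtain ⟨rfl, rfl⟩ := h3
    obtain ⟨h7, rfl⟩ := h5
    have h8 := hinj h7
    subst h8
    exact (key _ _).2 (htr _ _ _ h4 h6)
  obtain ⟨zf, hzf, hzf2⟩ := exists_zf
  have hmem : ∀ u : SP, u ∈ ({u : SP | Good ψ (Eu u) (zf u)} ∩ zf ⁻¹' range e) ↔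
      ∃ x, Good ψ (Eu u) (e x) := by
    intro u
    constructor
    · rintro ⟨h1, x, hx⟩
      refine ⟨x, ?_⟩
      rw [hx]
      exact h1
    · rintro ⟨x, hx⟩
      have h1 := hzf2 ψ u _ hx
      refine ⟨?_, x, h1.symm⟩
      show Good ψ (Eu u) (zf u)
      rw [h1]
      exact hx
  have hiff : ∀ (u v : SP) (x y : X), Good ψ (Eu u) (e x) → Good ψ (Eu v) (e y) →
      (Nonempty (@FirstOrder.Language.ElementaryEmbedding Lg ℕ ℕ (St ℕ u) (St ℕ v)) ↔
        R x y) := by
    intro u v x y hu hv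
    rw [good_iff hψ htrans hu hv ((key y y).2 (hrefl y)), key]
  refine ⟨{u : SP | Good ψ (Eu u) (zf u)} ∩ zf ⁻¹' range e, ?_, ?_, ?_, ?_⟩
  · exact (meas_Good ψ hzf).inter (hzf hemb.measurableSet_range)
  · intro σ u
    rw [hmem, hmem]
    exact exists_congr fun x => good_perm u σ
  · refine ⟨fun x => fz ψ (e x), (fz_meas ψ).comp he, fun x => (hmem _).2 ⟨x, fz_good ψ _⟩, ?_⟩
    intro x y
    exact (hiff _ _ x y (fz_good ψ _) (fz_good ψ _)).symm
  · have hg : ∀ u : ({u : SP | Good ψ (Eu u) (zf u)} ∩ zf ⁻¹' range e : Set SP),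
        zf u.1 ∈ range e := fun u => u.2.2
    refine ⟨fun u => hemb.equivRange.symm ⟨zf u.1, hg u⟩, ?_, ?_⟩
    · exact hemb.equivRange.symm.measurable.comp
        ((hzf.comp measurable_subtype_coe).subtype_mk)
    · have hge : ∀ u : ({u : SP | Good ψ (Eu u) (zf u)} ∩ zf ⁻¹' range e : Set SP),
          e (hemb.equivRange.symm ⟨zf u.1, hg u⟩) = zf u.1 := by
        intro u
        have h1 := hemb.equivRange.apply_symm_apply ⟨zf u.1, hg u⟩
        rw [MeasurableEmbedding.equivRange_apply] at h1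
        exact congrArg Subtype.val h1
      intro u v
      refine hiff u.1 v.1 _ _ ?_ ?_
      · rw [hge]
        exact u.2.1
      · rw [hge]
        exact v.2.1

end Pool.Agent.H565.AQ
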