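import Pool.Agent.H565.AQ.Good

set_option autoImplicit false

/-!
Transport along bijections and measurability of the class of good structures.
-/

namespace Pool.Agent.H565.AQ

open Set

variable {U V : Type}

theorem inf_tr (σ : U ≃ V) {P : U → Prop} {Q : V → Prop} (h : ∀ a, P a ↔ Q (σ a)) :
    {a | P a}.Infinite ↔ {b | Q b}.Infinite := by
  have : {b | Q b} = σ '' {a | P a} := by
    ext b
    constructor
    · intro hb
      refine ⟨σ.symm b, (h _).2 ?_, σ.apply_symm_apply b⟩
      rw [σ.apply_symm_apply]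
      exact hb
    · rintro ⟨a, ha, rfl⟩
      exact (h a).1 ha
  rw [this, Set.infinite_image_iff σ.injective.injOn]

section
variable {E : R3 U} {E' : R3 V} (σ : U ≃ V) (h : ∀ d c a b, E d c a b ↔ E' d c (σ a) (σ b))
include h

theorem dp_tr (n : ℕ) (a : U) : Dp E n a ↔ Dp E' n (σ a) := by
  cases n with
  | zero => exact σ.exists_congr fun b => h 0 0 a b
  | succ n => exact σ.exists_congr fun b => h n 0 b a

theorem ch_tr (a b : U) : ChE E a b ↔ ChE E' (σ a) (σ b) := exists_congr fun d => h d 0 a b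

theorem col_tr (j : ℕ) (a b : U) : ColE E j a b ↔ ColE E' j (σ a) (σ b) :=
  exists_congr fun d => h d (j + 1) a b

theorem infE_tr (a b : U) : InfE E a b ↔ InfE E' (σ a) (σ b) :=
  and_congr (ch_tr σ h a b) (forall_congr' fun j => not_congr (col_tr σ h j a b))

theorem off_tr (a : U) : Off E a ↔ Off E' (σ a) :=
  σ.forall_congr fun b => not_congr (infE_tr σ h a b)

theorem top_tr (a : U) : Top E a ↔ Top E' (σ a) := inf_tr σ fun b => infE_tr σ h a b

theorem ex_tr (k : ℕ) (a : U) : Ex E k a ↔ Ex E' k (σ a) := by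
  constructor
  · rintro ⟨s, hs, h1⟩
    refine ⟨s.map σ.toEmbedding, by rw [Finset.card_map, hs], fun b => ?_⟩
    rw [Finset.mem_map_equiv, h1, infE_tr σ h, σ.apply_symm_apply]
  · rintro ⟨s, hs, h1⟩
    refine ⟨s.map σ.symm.toEmbedding, by rw [Finset.card_map, hs], fun b => ?_⟩
    rw [Finset.mem_map_equiv, h1, infE_tr σ h, σ.symm_symm]

theorem lab_tr (a : U) (l : List Ent) : Lab E a l ↔ Lab E' (σ a) l :=
  σ.exists_congr fun c => and_congr (infE_tr σ h a c) (ex_tr σ h _ c)

theorem TreeAx.tr (hE : TreeAx E') : TreeAx E where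
  t1 := by
    refine (σ.exists_congr fun r => and_congr (dp_tr σ h 0 r) ?_).2 hE.t1
    exact σ.forall_congr fun r' => imp_congr (dp_tr σ h 0 r') (by rw [σ.apply_eq_iff_eq])
  t2 b := by
    obtain ⟨n, h1, h2⟩ := hE.t2 (σ b)
    exact ⟨n, (dp_tr σ h n b).2 h1, fun m hm => h2 m ((dp_tr σ h m b).1 hm)⟩
  t3 n a b h1 := (dp_tr σ h n a).2 (hE.t3 n _ _ ((h _ _ _ _).1 h1))
  t4 n a a' b h1 h2 := σ.injective (hE.t4 n _ _ _ ((h _ _ _ _).1 h1) ((h _ _ _ _).1 h2))
  t5 n c a b h1 := (h _ _ _ _).2 (hE.t5 _ _ _ _ ((h _ _ _ _).1 h1))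
  t6 n c c' a b h1 h2 := hE.t6 _ _ _ _ _ ((h _ _ _ _).1 h1) ((h _ _ _ _).1 h2)
  t7 a j := (inf_tr σ fun b => col_tr σ h j a b).2 (hE.t7 (σ a) j)

theorem Good.tr {ψ : Sq → Sq × Sq} {z : Sq} (hG : Good ψ E' z) : Good ψ E z where
  tree := hG.tree.tr σ h
  b1 := (σ.exists_congr fun r => and_congr (dp_tr σ h 0 r) (lab_tr σ h r [])).2 hG.b1
  b2 a b h1 h2 := (off_tr σ h b).2 (hG.b2 (σ a) (σ b) ((off_tr σ h a).1 h1) ((ch_tr σ h _ _).1 h2))
  b3 a l c b h1 h2 h3 := (off_tr σ h b).2 (hG.b3 (σ a) l (σ c) (σ b) ((lab_tr σ h a l).1 h1)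
    ((infE_tr σ h _ _).1 h2) ((ch_tr σ h _ _).1 h3))
  b4 a l h1 := (inf_tr σ fun c => and_congr (infE_tr σ h a c) (top_tr σ h c)).2
    (hG.b4 (σ a) l ((lab_tr σ h a l).1 h1))
  b5 a l c h1 h2 := (or_congr (ex_tr σ h _ c) (top_tr σ h c)).2
    (hG.b5 (σ a) l (σ c) ((lab_tr σ h a l).1 h1) ((infE_tr σ h _ _).1 h2))
  b6 a l b j h1 h2 := (or_congr (off_tr σ h b) (exists_congr fun ε =>
    and_congr_left' (lab_tr σ h b _))).2
    (hG.b6 (σ a) l (σ b) j ((lab_tr σ h a l).1 h1) ((col_tr σ h _ _ _).1 h2))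
  b7 a l ε j h1 h2 := (inf_tr σ fun b => and_congr (col_tr σ h j a b) (lab_tr σ h b _)).2
    (hG.b7 (σ a) l ε j ((lab_tr σ h a l).1 h1) h2)
end

/-! ### Labels record `z` -/

theorem Good.status {ψ : Sq → Sq × Sq} {E : R3 U} {z : Sq} (h : Good ψ E z) (a : U) :
    Off E a ∨ (∃ l, Zc z l ∧ Lab E a l) ∨ ∃ p l, Lab E p l ∧ InfE E p a := by
  obtain ⟨T, hT, _⟩ := h.tree.exists_TD
  suffices H : ∀ n a, T.dep a = n →
      (Off E a ∨ (∃ l, Zc z l ∧ Lab E a l) ∨ ∃ p l, Lab E p l ∧ InfE E p a) from H _ a rfl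
  intro n
  induction n with
  | zero =>
    intro a ha
    refine Or.inr (Or.inl ⟨[], trivial, h.root_lab ?_⟩)
    obtain ⟨r, ⟨b, hb⟩, _⟩ := h.tree.t1
    have := ((hT _ _ _ _).1 hb).1.1
    rw [T.root_of r this] at hb
    rw [T.root_of a ha]
    exact ⟨b, hb⟩
  | succ n ih =>
    intro a ha
    have hch : T.Ch (T.par a) a := ⟨by rw [ha, T.dep_par a n ha], rfl⟩
    rcases ih (T.par a) (T.dep_par a n ha) with h1 | ⟨l, hz, hl⟩ | ⟨p, l, hl, hp⟩
    · exact Or.inl (h.b2 _ a h1 ((chE_iff hT _ _).2 hch))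
    · rcases hc : T.col a with _ | j
      · exact Or.inr (Or.inr ⟨_, l, hl, (infE_iff hT _ _).2 ⟨hch, hc⟩⟩)
      · rcases h.b6 _ l a j hl ((colE_iff hT _ _ _).2 ⟨hch, hc⟩) with h1 | ⟨ε, h1, _⟩
        · exact Or.inl h1
        · exact Or.inr (Or.inl ⟨(ε, j, z l.length) :: l, ⟨rfl, hz⟩, h1⟩)
    · exact Or.inl (h.b3 p l _ a hl hp ((chE_iff hT _ _).2 hch))

theorem Good.lab_Zc {ψ : Sq → Sq × Sq} {E : R3 U} {z : Sq} (h : Good ψ E z) {a : U}
    {l : List Ent} (hl : Lab E a l) : Zc z l := by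
  rcases h.status a with h1 | ⟨l', hz, hl'⟩ | ⟨p, l', hl', hp⟩
  · exact absurd h1 hl.not_off
  · rw [h.lab_unique hl hl']
    exact hz
  · obtain ⟨c, hc, s, hs, hs2⟩ := hl
    have hoff := h.b3 p l' a c hl' hp hc.1
    have hne : s.Nonempty := by
      rw [← Finset.card_pos, hs]
      exact Nat.succ_pos _
    obtain ⟨b, hb⟩ := hne
    exact absurd ((hs2 b).1 hb) (hoff b)

/-- value of the coded point at `n`, as read off from labels -/
def zv (E : R3 U) (n i : ℕ) : Prop :=
  ∃ (a : U) (l : List Ent) (ε : List (ℕ × ℕ)) (j : ℕ), l.length = n ∧ Lab E a ((ε, j, i) :: l)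

theorem Good.zv_eq {ψ : Sq → Sq × Sq} {E : R3 U} {z : Sq} (h : Good ψ E z) {n i : ℕ}
    (hi : zv E n i) : i = z n := by
  obtain ⟨a, l, ε, j, hl, hlab⟩ := hi
  have := (h.lab_Zc hlab).1
  rw [hl] at this
  exact this

theorem Good.exists_lab {ψ : Sq → Sq × Sq} {E : R3 U} {z : Sq} (h : Good ψ E z) (n : ℕ) :
    ∃ a, Lab E a (lv (fun _ => []) z z n) := by
  induction n with
  | zero =>
    obtain ⟨r, _, hr⟩ := h.b1
    exact ⟨r, hr⟩
  | succ n ih =>
    obtain ⟨a, ha⟩ := ih
    have hv : Val ψ (([], z n, z (lv (fun _ => []) z z n).length) :: lv (fun _ => []) z z n) := by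
      rw [lv_length]
      exact val_refl ψ z (n + 1)
    obtain ⟨b, _, hb2⟩ := (h.b7 a (lv (fun _ => []) z z n) [] (z n) ha hv).nonempty
    rw [lv_length] at hb2
    exact ⟨b, hb2⟩

theorem Good.zv_self {ψ : Sq → Sq × Sq} {E : R3 U} {z : Sq} (h : Good ψ E z) (n : ℕ) :
    zv E n (z n) := by
  obtain ⟨a, ha⟩ := h.exists_lab (n + 1)
  exact ⟨a, _, _, _, lv_length _ _ _ _, ha⟩

/-! ### Measurability -/

abbrev SP := ℕ → (Fin 2 → ℕ) → Bool

def Eu (u : SP) : R3 ℕ := fun d c a b => u (Nat.pair d c) ![a, b] = true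

theorem meas_E (d c a b : ℕ) : Measurable fun u : SP => Eu u d c a b := by
  rw [← measurableSet_setOfPred]
  have h1 : Measurable fun u : SP => u (Nat.pair d c) ![a, b] :=
    (measurable_pi_apply _).comp (measurable_pi_apply _)
  exact h1 (measurableSet_singleton true)

theorem meas_inf {P : SP → ℕ → Prop} (h : ∀ b, Measurable fun u => P u b) :
    Measurable fun u => {b | P u b}.Infinite := by
  have : (fun u => {b | P u b}.Infinite) = fun u => ∀ m : ℕ, ∃ b : ℕ, P u b ∧ m < b := by
    funext u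
    apply propext
    rw [Set.infinite_iff_exists_gt]
    rfl
  rw [this]
  exact Measurable.forall fun m => Measurable.exists fun b => (h b).and measurable_const

theorem meas_Dp (n a : ℕ) : Measurable fun u : SP => Dp (Eu u) n a := by
  cases n with
  | zero => exact Measurable.exists fun b => meas_E 0 0 a b
  | succ n => exact Measurable.exists fun b => meas_E n 0 b a

theorem meas_Ch (a b : ℕ) : Measurable fun u : SP => ChE (Eu u) a b :=
  Measurable.exists fun d => meas_E d 0 a b

theorem meas_Col (j a b : ℕ) : Measurable fun u : SP => ColE (Eu u) j a b :=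
  Measurable.exists fun d => meas_E d (j + 1) a b

theorem meas_Inf (a b : ℕ) : Measurable fun u : SP => InfE (Eu u) a b :=
  (meas_Ch a b).and (Measurable.forall fun j => (meas_Col j a b).not)

theorem meas_Off (a : ℕ) : Measurable fun u : SP => Off (Eu u) a :=
  Measurable.forall fun b => (meas_Inf a b).not

theorem meas_Top (a : ℕ) : Measurable fun u : SP => Top (Eu u) a :=
  meas_inf fun b => meas_Inf a b

theorem meas_Ex (k a : ℕ) : Measurable fun u : SP => Ex (Eu u) k a :=
  Measurable.exists fun _ => measurable_const.and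
    (Measurable.forall fun b => measurable_const.iff (meas_Inf a b))

theorem meas_Lab (a : ℕ) (l : List Ent) : Measurable fun u : SP => Lab (Eu u) a l :=
  Measurable.exists fun c => (meas_Inf a c).and (meas_Ex _ c)

theorem meas_TreeAx : Measurable fun u : SP => TreeAx (Eu u) := by
  have : (fun u : SP => TreeAx (Eu u)) = fun u =>
      (∃ r, Dp (Eu u) 0 r ∧ ∀ r', Dp (Eu u) 0 r' → r' = r) ∧
      (∀ b, ∃ n, Dp (Eu u) n b ∧ ∀ m, Dp (Eu u) m b → m = n) ∧
      (∀ n a b, (Eu u) n 0 a b → Dp (Eu u) n a) ∧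
      (∀ n a a' b, (Eu u) n 0 a b → (Eu u) n 0 a' b → a = a') ∧
      (∀ n c a b, (Eu u) n (c + 1) a b → (Eu u) n 0 a b) ∧
      (∀ n c c' a b, (Eu u) n (c + 1) a b → (Eu u) n (c' + 1) a b → c = c') ∧
      (∀ a j, {b | ColE (Eu u) j a b}.Infinite) := by
    funext u
    apply propext
    constructor
    · intro h
      exact ⟨h.t1, h.t2, h.t3, h.t4, h.t5, h.t6, h.t7⟩
    · rintro ⟨t1, t2, t3, t4, t5, t6, t7⟩
      exact ⟨t1, t2, t3, t4, t5, t6, t7⟩
  rw [this]
  refine Measurable.and ?_ (Measurable.and ?_ (Measurable.and ?_ (Measurable.and ?_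
    (Measurable.and ?_ (Measurable.and ?_ ?_)))))
  · exact Measurable.exists fun r => (meas_Dp 0 r).and
      (Measurable.forall fun r' => (meas_Dp 0 r').imp measurable_const)
  · exact Measurable.forall fun b => Measurable.exists fun n => (meas_Dp n b).and
      (Measurable.forall fun m => (meas_Dp m b).imp measurable_const)
  · exact Measurable.forall fun n => Measurable.forall fun a => Measurable.forall fun b =>
      (meas_E n 0 a b).imp (meas_Dp n a)
  · exact Measurable.forall fun n => Measurable.forall fun a => Measurable.forall fun a' =>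
      Measurable.forall fun b => (meas_E n 0 a b).imp ((meas_E n 0 a' b).imp measurable_const)
  · exact Measurable.forall fun n => Measurable.forall fun c => Measurable.forall fun a =>
      Measurable.forall fun b => (meas_E n (c + 1) a b).imp (meas_E n 0 a b)
  · exact Measurable.forall fun n => Measurable.forall fun c => Measurable.forall fun c' =>
      Measurable.forall fun a => Measurable.forall fun b =>
        (meas_E n (c + 1) a b).imp ((meas_E n (c' + 1) a b).imp measurable_const)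
  · exact Measurable.forall fun a => Measurable.forall fun j => meas_inf fun b => meas_Col j a b

theorem meas_zv (n i : ℕ) : Measurable fun u : SP => zv (Eu u) n i :=
  Measurable.exists fun a => Measurable.exists fun l => Measurable.exists fun ε =>
    Measurable.exists fun j => measurable_const.and (meas_Lab a _)

theorem exists_zf : ∃ zf : SP → Sq, Measurable zf ∧
    ∀ (ψ : Sq → Sq × Sq) (u : SP) (z : Sq), Good ψ (Eu u) z → zf u = z := by
  classical
  let p : ℕ → SP → ℕ → Prop := fun n u k => zv (Eu u) n k ∨ ∀ i, ¬ zv (Eu u) n i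
  have hp : ∀ n u, ∃ k, p n u k := by
    intro n u
    by_cases h : ∃ k, zv (Eu u) n k
    · obtain ⟨k, hk⟩ := h
      exact ⟨k, Or.inl hk⟩
    · exact ⟨0, Or.inr fun i hi => h ⟨i, hi⟩⟩
  refine ⟨fun u n => Nat.find (hp n u), ?_, ?_⟩
  · rw [measurable_pi_iff]
    intro n
    refine measurable_find (hp n) fun k => ?_
    rw [measurableSet_setOfPred]
    exact (meas_zv n k).or (Measurable.forall fun i => (meas_zv n i).not)
  · intro ψ u z h
    funext n
    rcases Nat.find_spec (hp n u) with h1 | h1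
    · exact h.zv_eq h1
    · exact absurd (h.zv_self n) (h1 _)

theorem meas_subst {P : ℕ → SP → Prop} (hP : ∀ i, Measurable (P i)) {t : SP → ℕ}
    (ht : Measurable t) : Measurable fun u => P (t u) u := by
  have : (fun u => P (t u) u) = fun u => ∃ i, t u = i ∧ P i u := by
    funext u
    simp
  rw [this]
  refine Measurable.exists fun i => Measurable.and ?_ (hP i)
  rw [← measurableSet_setOfPred]
  exact ht (measurableSet_singleton i)

theorem meas_Good (ψ : Sq → Sq × Sq) {zf : SP → Sq} (hzf : Measurable zf) :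
    MeasurableSet {u : SP | Good ψ (Eu u) (zf u)} := by
  rw [measurableSet_setOfPred]
  have hz : ∀ n, Measurable fun u => zf u n := fun n => (measurable_pi_apply n).comp hzf
  have : (fun u : SP => Good ψ (Eu u) (zf u)) = fun u =>
      (TreeAx (Eu u)) ∧
      (∃ r, Dp (Eu u) 0 r ∧ Lab (Eu u) r []) ∧
      (∀ a b, Off (Eu u) a → ChE (Eu u) a b → Off (Eu u) b) ∧
      (∀ a l c b, Lab (Eu u) a l → InfE (Eu u) a c → ChE (Eu u) c b → Off (Eu u) b) ∧
      (∀ a l, Lab (Eu u) a l → {c | InfE (Eu u) a c ∧ Top (Eu u) c}.Infinite) ∧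
      (∀ a (l : List Ent) c, Lab (Eu u) a l → InfE (Eu u) a c →
        Ex (Eu u) (Encodable.encode l + 1) c ∨ Top (Eu u) c) ∧
      (∀ a l b j, Lab (Eu u) a l → ColE (Eu u) j a b → Off (Eu u) b ∨
        ∃ ε : List (ℕ × ℕ), Lab (Eu u) b ((ε, j, zf u l.length) :: l) ∧
          Val ψ ((ε, j, zf u l.length) :: l)) ∧
      (∀ a (l : List Ent) (ε : List (ℕ × ℕ)) j, Lab (Eu u) a l →
        Val ψ ((ε, j, zf u l.length) :: l) →
        {b | ColE (Eu u) j a b ∧ Lab (Eu u) b ((ε, j, zf u l.length) :: l)}.Infinite) := by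
    funext u
    apply propext
    constructor
    · intro h
      exact ⟨h.tree, h.b1, h.b2, h.b3, h.b4, h.b5, h.b6, h.b7⟩
    · rintro ⟨t, b1, b2, b3, b4, b5, b6, b7⟩
      exact ⟨t, b1, b2, b3, b4, b5, b6, b7⟩
  rw [this]
  have hV : ∀ (ε : List (ℕ × ℕ)) (j : ℕ) (l : List Ent),
      Measurable fun u => Val ψ ((ε, j, zf u l.length) :: l) := fun ε j l =>
    meas_subst (P := fun i _ => Val ψ ((ε, j, i) :: l)) (fun i => measurable_const)
      (hz l.length)
  have hL : ∀ (b : ℕ) (ε : List (ℕ × ℕ)) (j : ℕ) (l : List Ent),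
      Measurable fun u => Lab (Eu u) b ((ε, j, zf u l.length) :: l) := fun b ε j l =>
    meas_subst (P := fun i u => Lab (Eu u) b ((ε, j, i) :: l)) (fun i => meas_Lab b _)
      (hz l.length)
  refine meas_TreeAx.and (Measurable.and ?_ (Measurable.and ?_ (Measurable.and ?_ (Measurable.and ?_
    (Measurable.and ?_ (Measurable.and ?_ ?_))))))
  · exact Measurable.exists fun r => (meas_Dp 0 r).and (meas_Lab r [])
  · exact Measurable.forall fun a => Measurable.forall fun b =>
      (meas_Off a).imp ((meas_Ch a b).imp (meas_Off b))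
  · exact Measurable.forall fun a => Measurable.forall fun l => Measurable.forall fun c =>
      Measurable.forall fun b =>
        (meas_Lab a l).imp ((meas_Inf a c).imp ((meas_Ch c b).imp (meas_Off b)))
  · exact Measurable.forall fun a => Measurable.forall fun l =>
      (meas_Lab a l).imp (meas_inf fun c => (meas_Inf a c).and (meas_Top c))
  · exact Measurable.forall fun a => Measurable.forall fun l => Measurable.forall fun c =>
      (meas_Lab a l).imp ((meas_Inf a c).imp ((meas_Ex _ c).or (meas_Top c)))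
  · exact Measurable.forall fun a => Measurable.forall fun l => Measurable.forall fun b =>
      Measurable.forall fun j => (meas_Lab a l).imp ((meas_Col j a b).imp ((meas_Off b).or
        (Measurable.exists fun ε => (hL b ε j l).and (hV ε j l))))
  · exact Measurable.forall fun a => Measurable.forall fun l => Measurable.forall fun ε =>
      Measurable.forall fun j => (meas_Lab a l).imp ((hV ε j l).imp
        (meas_inf fun b => (meas_Col j a b).and (hL b ε j l)))

end Pool.Agent.H565.AQ
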