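import Pool.Agent.H565.AQ.Meas

set_option autoImplicit false

/-!
The standard good structure coding a point `z`.
-/

namespace Pool.Agent.H565.AQ

open Set

/-- Node states: `inl l`: labelled; `inr (some q)`: witness; `inr none`: off. -/
abbrev Ste := List Ent ⊕ Option (Option ℕ)

open Classical in
/-- colour and state of the `m`-th child of a node -/
noncomputable def trn (ψ : Sq → Sq × Sq) (i : ℕ) : Ste → ℕ → Option ℕ × Ste
  | Sum.inr none, m => (some m.unpair.1, Sum.inr none)
  | Sum.inr (some none), m =>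
    if m % 2 = 0 then (none, Sum.inr none) else (some (m / 2).unpair.1, Sum.inr none)
  | Sum.inr (some (some k)), m =>
    if m < k then (none, Sum.inr none) else (some (m - k).unpair.1, Sum.inr none)
  | Sum.inl l, m =>
    if m % 3 = 0 then (none, Sum.inr (some none)) else
    if m % 3 = 1 then (none, Sum.inr (some (some (Encodable.encode l + 1)))) else
    (some (m / 3).unpair.1,
      if Val ψ (((Encodable.decode (m / 3).unpair.2.unpair.1).getD [], (m / 3).unpair.1, i) :: l)
      then Sum.inl (((Encodable.decode (m / 3).unpair.2.unpair.1).getD [], (m / 3).unpair.1, i) :: l)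
      else Sum.inr none)

noncomputable def sta (ψ : Sq → Sq × Sq) (z : Sq) : List ℕ → Ste
  | [] => Sum.inl []
  | m :: p => (trn ψ (z p.length) (sta ψ z p) m).2

def Ez (ψ : Sq → Sq × Sq) (z : Sq) : R3 (List ℕ) := fun d c a b =>
  a.length = d ∧ ∃ m, b = m :: a ∧ ∀ j, c = j + 1 → (trn ψ (z d) (sta ψ z a) m).1 = some j

section
variable (ψ : Sq → Sq × Sq) (z : Sq)

theorem ez_Dp (n : ℕ) (a : List ℕ) : Dp (Ez ψ z) n a ↔ a.length = n := by
  cases n with
  | zero =>
    constructor
    · rintro ⟨b, h, _⟩
      exact h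
    · intro h
      exact ⟨0 :: a, h, 0, rfl, fun j hj => by omega⟩
  | succ n =>
    constructor
    · rintro ⟨b, h, m, rfl, _⟩
      simp [h]
    · intro h
      rcases a with _ | ⟨m, a⟩
      · simp at h
      · exact ⟨a, by simpa using h, m, rfl, fun j hj => by omega⟩

theorem ez_Ch (a b : List ℕ) : ChE (Ez ψ z) a b ↔ ∃ m, b = m :: a := by
  constructor
  · rintro ⟨d, _, m, h, _⟩
    exact ⟨m, h⟩
  · rintro ⟨m, h⟩
    exact ⟨a.length, rfl, m, h, fun j hj => by omega⟩

theorem ez_Col (j : ℕ) (a b : List ℕ) :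
    ColE (Ez ψ z) j a b ↔ ∃ m, b = m :: a ∧ (trn ψ (z a.length) (sta ψ z a) m).1 = some j := by
  constructor
  · rintro ⟨d, hd, m, h, h2⟩
    rw [hd]
    exact ⟨m, h, h2 j rfl⟩
  · rintro ⟨m, h, h2⟩
    refine ⟨a.length, rfl, m, h, fun j' hj => ?_⟩
    have : j' = j := by omega
    rw [this]
    exact h2

theorem ez_Inf (a b : List ℕ) :
    InfE (Ez ψ z) a b ↔ ∃ m, b = m :: a ∧ (trn ψ (z a.length) (sta ψ z a) m).1 = none := by
  unfold InfE
  rw [ez_Ch]
  simp only [ez_Col]
  constructor
  · rintro ⟨⟨m, h⟩, h2⟩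
    refine ⟨m, h, ?_⟩
    rcases h3 : (trn ψ (z a.length) (sta ψ z a) m).1 with _ | j
    · rfl
    · exact absurd ⟨m, h, h3⟩ (h2 j)
  · rintro ⟨m, h, h2⟩
    refine ⟨⟨m, h⟩, ?_⟩
    rintro j ⟨m', h', h3⟩
    have : m' = m := by
      rw [h] at h'
      simpa using h'.symm
    rw [this, h2] at h3
    simp at h3

variable {ψ z}

theorem off_of_none {a : List ℕ} (h : sta ψ z a = Sum.inr none) : Off (Ez ψ z) a := by
  intro b hb
  rw [ez_Inf] at hb
  obtain ⟨m, _, h2⟩ := hb
  rw [h] at h2
  simp [trn] at h2

theorem sta_child_none {a : List ℕ} (h : sta ψ z a = Sum.inr none) (m : ℕ) :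
    sta ψ z (m :: a) = Sum.inr none := by
  show (trn ψ (z a.length) (sta ψ z a) m).2 = _
  rw [h]
  rfl

theorem sta_child_wit {a : List ℕ} {q : Option ℕ} (h : sta ψ z a = Sum.inr (some q)) (m : ℕ) :
    sta ψ z (m :: a) = Sum.inr none := by
  show (trn ψ (z a.length) (sta ψ z a) m).2 = _
  rw [h]
  rcases q with _ | k
  · simp only [trn]
    split_ifs <;> rfl
  · simp only [trn]
    split_ifs <;> rfl

theorem top_of_wit {a : List ℕ} (h : sta ψ z a = Sum.inr (some none)) : Top (Ez ψ z) a := by
  refine Set.infinite_of_injective_forall_mem (f := fun n : ℕ => (2 * n) :: a) ?_ ?_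
  · intro n m hnm
    simp only [List.cons.injEq, and_true] at hnm
    omega
  · intro n
    show InfE _ _ _
    rw [ez_Inf, h]
    refine ⟨2 * n, rfl, ?_⟩
    simp [trn]

theorem ex_of_wit {a : List ℕ} {k : ℕ} (h : sta ψ z a = Sum.inr (some (some k))) :
    Ex (Ez ψ z) k a := by
  refine ⟨(Finset.range k).map ⟨fun m => m :: a, fun m m' h => by simpa using h⟩, ?_, ?_⟩
  · simp
  · intro b
    rw [ez_Inf, h]
    simp only [Finset.mem_map, Finset.mem_range, Function.Embedding.coeFn_mk]
    constructor
    · rintro ⟨m, h1, h2⟩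
      refine ⟨m, h2.symm, ?_⟩
      simp [trn, h1]
    · rintro ⟨m, h1, h2⟩
      refine ⟨m, ?_, h1.symm⟩
      by_contra h3
      simp [trn, h3] at h2

theorem ex_unique {a : List ℕ} {k k' : ℕ} (h : Ex (Ez ψ z) k a) (h' : Ex (Ez ψ z) k' a) :
    k = k' := h.unique h'

theorem lab_iff {a : List ℕ} {l : List Ent} : Lab (Ez ψ z) a l ↔ sta ψ z a = Sum.inl l := by
  constructor
  · rintro ⟨c, hc, hex⟩
    rw [ez_Inf] at hc
    obtain ⟨m, rfl, hm⟩ := hc
    have hnoff : ¬ Off (Ez ψ z) (m :: a) := by
      obtain ⟨s, hs, hs2⟩ := hex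
      have hne : s.Nonempty := by
        rw [← Finset.card_pos, hs]
        exact Nat.succ_pos _
      obtain ⟨b, hb⟩ := hne
      exact fun h => h b ((hs2 b).1 hb)
    rcases h : sta ψ z a with l' | q
    · rw [h] at hm
      have hs : sta ψ z (m :: a) = (trn ψ (z a.length) (Sum.inl l') m).2 := by
        rw [← h]
        rfl
      simp only [trn] at hm hs
      by_cases h0 : m % 3 = 0
      · simp only [h0, if_true] at hs
        exact absurd (top_of_wit hs) hex.not_top
      · by_cases h1 : m % 3 = 1
        · simp only [h0, h1, if_true, if_false] at hs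
          have := (ex_of_wit hs).unique hex
          have : Encodable.encode l' = Encodable.encode l := by omega
          rw [Encodable.encode_injective this]
        · simp only [h0, h1, if_false] at hm
          simp at hm
    · rcases q with _ | q
      · exact absurd (off_of_none (sta_child_none h m)) hnoff
      · exact absurd (off_of_none (sta_child_wit h m)) hnoff
  · intro h
    refine ⟨1 :: a, ?_, ?_⟩
    · rw [ez_Inf, h]
      exact ⟨1, rfl, by simp [trn]⟩
    · apply ex_of_wit
      show (trn ψ (z a.length) (sta ψ z a) 1).2 = _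
      rw [h]
      simp [trn]

theorem sta_length {a : List ℕ} {l : List Ent} (h : sta ψ z a = Sum.inl l) :
    l.length = a.length := by
  induction a generalizing l with
  | nil =>
    simp only [sta, Sum.inl.injEq] at h
    rw [← h]
    rfl
  | cons m a ih =>
    rcases h2 : sta ψ z a with l' | q
    · have h3 : (trn ψ (z a.length) (Sum.inl l') m).2 = Sum.inl l := by
        rw [← h2]
        exact h
      simp only [trn] at h3
      split_ifs at h3 with h4 h5 h6
      · simp only [Sum.inl.injEq] at h3
        rw [← h3]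
        simp [ih h2]
    · rcases q with _ | q
      · rw [sta_child_none h2] at h
        simp at h
      · rw [sta_child_wit h2] at h
        simp at h

theorem ez_b67 {a : List ℕ} {l : List Ent} (h : sta ψ z a = Sum.inl l) {m j : ℕ}
    (hm : (trn ψ (z a.length) (sta ψ z a) m).1 = some j) :
    sta ψ z (m :: a) = Sum.inr none ∨
    ∃ ε : List (ℕ × ℕ), sta ψ z (m :: a) = Sum.inl ((ε, j, z l.length) :: l) ∧
      Val ψ ((ε, j, z l.length) :: l) := by
  rw [sta_length h]
  have hs : sta ψ z (m :: a) = (trn ψ (z a.length) (Sum.inl l) m).2 := by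
    rw [← h]
    rfl
  rw [h] at hm
  simp only [trn] at hm hs
  by_cases h0 : m % 3 = 0
  · simp [h0] at hm
  · by_cases h1 : m % 3 = 1
    · simp [h1] at hm
    · simp only [h0, h1, if_false] at hm hs
      simp only [Option.some.injEq] at hm
      rw [hm] at hs
      split_ifs at hs with h2
      · exact Or.inr ⟨_, hs, h2⟩
      · exact Or.inl hs

theorem ez_tree (ψ : Sq → Sq × Sq) (z : Sq) : TreeAx (Ez ψ z) where
  t1 := by
    refine ⟨[], (ez_Dp ψ z 0 []).2 rfl, fun r hr => ?_⟩
    rw [ez_Dp] at hr
    exact List.length_eq_zero_iff.1 hr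
  t2 b := by
    refine ⟨b.length, (ez_Dp ψ z _ b).2 rfl, fun m hm => ?_⟩
    rw [ez_Dp] at hm
    exact hm.symm
  t3 n a b h := (ez_Dp ψ z n a).2 h.1
  t4 n a a' b h1 h2 := by
    obtain ⟨_, m, rfl, _⟩ := h1
    obtain ⟨_, m', h, _⟩ := h2
    simp only [List.cons.injEq] at h
    exact h.2
  t5 n c a b h := by
    obtain ⟨h1, m, h2, _⟩ := h
    exact ⟨h1, m, h2, fun j hj => by omega⟩
  t6 n c c' a b h1 h2 := by
    obtain ⟨_, m, rfl, h3⟩ := h1
    obtain ⟨_, m', h4, h5⟩ := h2
    simp only [List.cons.injEq, and_true] at h4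
    have e1 := h3 c rfl
    have e2 := h5 c' rfl
    rw [← h4, e1] at e2
    simpa using e2
  t7 a j := by
    rcases h : sta ψ z a with l | (_ | (_ | k))
    · refine Set.infinite_of_injective_forall_mem
        (f := fun n : ℕ => (3 * Nat.pair j n + 2) :: a) ?_ ?_
      · intro n m hnm
        simp only [List.cons.injEq, and_true] at hnm
        have : Nat.pair j n = Nat.pair j m := by omega
        simpa using (Nat.pair_eq_pair.1 this).2
      · intro n
        show ColE _ _ _ _
        rw [ez_Col, h]
        refine ⟨_, rfl, ?_⟩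
        have e1 : (3 * Nat.pair j n + 2) % 3 = 2 := by omega
        have e2 : (3 * Nat.pair j n + 2) / 3 = Nat.pair j n := by omega
        simp [trn, e1, e2]
    · refine Set.infinite_of_injective_forall_mem
        (f := fun n : ℕ => (Nat.pair j n) :: a) ?_ ?_
      · intro n m hnm
        simp only [List.cons.injEq, and_true] at hnm
        simpa using (Nat.pair_eq_pair.1 hnm).2
      · intro n
        show ColE _ _ _ _
        rw [ez_Col, h]
        refine ⟨_, rfl, ?_⟩
        simp [trn]
    · refine Set.infinite_of_injective_forall_mem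
        (f := fun n : ℕ => (2 * Nat.pair j n + 1) :: a) ?_ ?_
      · intro n m hnm
        simp only [List.cons.injEq, and_true] at hnm
        have : Nat.pair j n = Nat.pair j m := by omega
        simpa using (Nat.pair_eq_pair.1 this).2
      · intro n
        show ColE _ _ _ _
        rw [ez_Col, h]
        refine ⟨_, rfl, ?_⟩
        have e1 : (2 * Nat.pair j n + 1) % 2 = 1 := by omega
        have e2 : (2 * Nat.pair j n + 1) / 2 = Nat.pair j n := by omega
        simp [trn, e1, e2]
    · refine Set.infinite_of_injective_forall_mem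
        (f := fun n : ℕ => (k + Nat.pair j n) :: a) ?_ ?_
      · intro n m hnm
        simp only [List.cons.injEq, and_true] at hnm
        have : Nat.pair j n = Nat.pair j m := by omega
        simpa using (Nat.pair_eq_pair.1 this).2
      · intro n
        show ColE _ _ _ _
        rw [ez_Col, h]
        refine ⟨_, rfl, ?_⟩
        have e1 : ¬ (k + Nat.pair j n < k) := by omega
        simp [trn]

theorem ez_good (ψ : Sq → Sq × Sq) (z : Sq) : Good ψ (Ez ψ z) z where
  tree := ez_tree ψ z
  b1 := ⟨[], (ez_Dp ψ z 0 []).2 rfl, lab_iff.2 rfl⟩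
  b2 a b h1 h2 := by
    rw [ez_Ch] at h2
    obtain ⟨m, rfl⟩ := h2
    rcases h : sta ψ z a with l | (_ | q)
    · exact absurd h1 (lab_iff.2 h).not_off
    · exact off_of_none (sta_child_none h m)
    · exact off_of_none (sta_child_wit h m)
  b3 a l c b h1 h2 h3 := by
    rw [lab_iff] at h1
    rw [ez_Inf] at h2
    rw [ez_Ch] at h3
    obtain ⟨m, rfl, hm⟩ := h2
    obtain ⟨m', rfl⟩ := h3
    have hs : sta ψ z (m :: a) = (trn ψ (z a.length) (Sum.inl l) m).2 := by
      rw [← h1]
      rfl
    rw [h1] at hm
    simp only [trn] at hm hs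
    split_ifs at hm hs with h4 h5
    · exact off_of_none (sta_child_wit hs m')
    · exact off_of_none (sta_child_wit hs m')
  b4 a l h := by
    rw [lab_iff] at h
    refine Set.infinite_of_injective_forall_mem (f := fun n : ℕ => (3 * n) :: a) ?_ ?_
    · intro n m hnm
      simp only [List.cons.injEq, and_true] at hnm
      omega
    · intro n
      refine ⟨?_, ?_⟩
      · rw [ez_Inf, h]
        exact ⟨_, rfl, by simp [trn]⟩
      · apply top_of_wit
        show (trn ψ (z a.length) (sta ψ z a) (3 * n)).2 = _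
        rw [h]
        simp [trn]
  b5 a l c h1 h2 := by
    rw [lab_iff] at h1
    rw [ez_Inf] at h2
    obtain ⟨m, rfl, hm⟩ := h2
    have hs : sta ψ z (m :: a) = (trn ψ (z a.length) (Sum.inl l) m).2 := by
      rw [← h1]
      rfl
    rw [h1] at hm
    simp only [trn] at hm hs
    split_ifs at hm hs with h4 h5
    · exact Or.inr (top_of_wit hs)
    · exact Or.inl (ex_of_wit hs)
  b6 a l b j h1 h2 := by
    rw [lab_iff] at h1
    rw [ez_Col] at h2
    obtain ⟨m, rfl, hm⟩ := h2
    rcases ez_b67 h1 hm with h3 | ⟨ε, h3, h4⟩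
    · exact Or.inl (off_of_none h3)
    · exact Or.inr ⟨ε, lab_iff.2 h3, h4⟩
  b7 a l ε j h1 h2 := by
    rw [lab_iff] at h1
    refine Set.infinite_of_injective_forall_mem
      (f := fun n : ℕ => (3 * Nat.pair j (Nat.pair (Encodable.encode ε) n) + 2) :: a) ?_ ?_
    · intro n m hnm
      simp only [List.cons.injEq, and_true] at hnm
      have : Nat.pair j (Nat.pair (Encodable.encode ε) n) =
        Nat.pair j (Nat.pair (Encodable.encode ε) m) := by omega
      exact (Nat.pair_eq_pair.1 (Nat.pair_eq_pair.1 this).2).2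
    · intro n
      have e1 : (3 * Nat.pair j (Nat.pair (Encodable.encode ε) n) + 2) % 3 = 2 := by omega
      have e2 : (3 * Nat.pair j (Nat.pair (Encodable.encode ε) n) + 2) / 3 =
        Nat.pair j (Nat.pair (Encodable.encode ε) n) := by omega
      refine ⟨?_, ?_⟩
      · rw [ez_Col, h1]
        refine ⟨_, rfl, ?_⟩
        simp [trn, e1, e2]
      · rw [lab_iff]
        show (trn ψ (z a.length) (sta ψ z a) _).2 = _
        rw [h1]
        rw [sta_length h1] at h2 ⊢
        simp [trn, e1, e2, h2]

end

/-! ### Measurability in `z` -/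

instance : MeasurableSpace Ste := ⊤

theorem sta_meas (ψ : Sq → Sq × Sq) (a : List ℕ) : Measurable fun z : Sq => sta ψ z a := by
  induction a with
  | nil => exact measurable_const
  | cons m a ih =>
    have h1 : Measurable fun z : Sq => (z a.length, sta ψ z a) :=
      (measurable_pi_apply _).prodMk ih
    have h2 : Measurable fun p : ℕ × Ste => (trn ψ p.1 p.2 m).2 := Measurable.of_discrete
    exact h2.comp h1

theorem ez_meas (ψ : Sq → Sq × Sq) (d c : ℕ) (a b : List ℕ) :
    Measurable fun z : Sq => Ez ψ z d c a b := by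
  refine measurable_const.and (Measurable.exists fun m => measurable_const.and
    (Measurable.forall fun j => measurable_const.imp ?_))
  have h1 : Measurable fun z : Sq => (z d, sta ψ z a) :=
    (measurable_pi_apply _).prodMk (sta_meas ψ a)
  have h2 : Measurable fun p : ℕ × Ste => ((trn ψ p.1 p.2 m).1 = some j : Prop) :=
    Measurable.of_discrete
  exact h2.comp h1

end Pool.Agent.H565.AQ
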