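import Pool.Agent.H565.AQ.EF

set_option autoImplicit false

/-!
Coloured trees and elementary embeddings between them.
-/

namespace Pool.Agent.H565.AQ

open Set

/-- Rooted tree with depth, parent and colour functions; colour `none` is the invisible colour. -/
structure TD (U : Type) where
  root : U
  dep : U → ℕ
  par : U → U
  col : U → Option ℕ
  dep_root : dep root = 0
  root_of : ∀ a, dep a = 0 → a = root
  dep_par : ∀ a n, dep a = n + 1 → dep (par a) = n

variable {U V : Type}

/-- `b` is a child of `a`. -/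
def TD.Ch (T : TD U) (a b : U) : Prop := T.dep b = T.dep a + 1 ∧ T.par b = a

/-- The relations coded by the tree: `c = 0`: child, `c = j + 1`: child of colour `j`. -/
def TD.E (T : TD U) (d c : ℕ) (a b : U) : Prop :=
  (T.dep a = d ∧ T.dep b = d + 1 ∧ T.par b = a) ∧ ∀ j, c = j + 1 → T.col b = some j

/-- `u` is the structure coded by `T`. -/
def Rep (u : ℕ → (Fin 2 → U) → Bool) (T : TD U) : Prop :=
  ∀ i a b, u i ![a, b] = true ↔ T.E (Nat.unpair i).1 (Nat.unpair i).2 a b

/-- Every node has infinitely many children of each visible colour. -/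
def TD.Br (T : TD U) : Prop := ∀ a j, {b | T.Ch a b ∧ T.col b = some j}.Infinite

/-- Finite partial isomorphisms, up to depth `D` and colours below `D`. -/
structure Sys (T : TD U) (T' : TD V) (D : ℕ) (p : Set (U × V)) : Prop where
  fin : p.Finite
  root : (T.root, T'.root) ∈ p
  eq : ∀ a b a' b', (a, b) ∈ p → (a', b') ∈ p → (a = a' ↔ b = b')
  dep : ∀ a b, (a, b) ∈ p → (T.dep a ≤ D ∨ T'.dep b ≤ D) → T.dep a = T'.dep b
  par : ∀ a b n, (a, b) ∈ p → T.dep a = n + 1 → n + 1 ≤ D → (T.par a, T'.par b) ∈ p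
  col : ∀ a b, (a, b) ∈ p → T.dep a ≤ D → T.dep a ≠ 0 → ∀ c < D,
    (T.col a = some c ↔ T'.col b = some c)

theorem Sys.swap {T : TD U} {T' : TD V} {D : ℕ} {p : Set (U × V)} (h : Sys T T' D p) :
    Sys T' T D {q | (q.2, q.1) ∈ p} where
  fin := by
    have : {q : V × U | (q.2, q.1) ∈ p} = Prod.swap '' p := by
      ext ⟨a, b⟩
      constructor
      · intro hq
        exact ⟨(b, a), hq, rfl⟩
      · rintro ⟨⟨x, y⟩, hq, he⟩
        simp only [Prod.swap_prod_mk, Prod.mk.injEq] at he
        obtain ⟨rfl, rfl⟩ := he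
        exact hq
    rw [this]
    exact h.fin.image _
  root := h.root
  eq a b a' b' h1 h2 := (h.eq b a b' a' h1 h2).symm
  dep a b h1 h2 := (h.dep b a h1 h2.symm).symm
  par a b n h1 h2 h3 := by
    have e : T.dep b = T'.dep a := h.dep b a h1 (Or.inr (by omega))
    exact h.par b a n h1 (e.trans h2) h3
  col a b h1 h2 h3 c hc := by
    have e : T.dep b = T'.dep a := h.dep b a h1 (Or.inr h2)
    exact (h.col b a h1 (by omega) (by omega) c hc).symm

theorem TD.Br.exists_dep {T : TD U} (h : T.Br) (n : ℕ) : ∃ a, T.dep a = n := by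
  induction n with
  | zero => exact ⟨T.root, T.dep_root⟩
  | succ n ih =>
    obtain ⟨a, ha⟩ := ih
    obtain ⟨b, hb⟩ := (h a 0).nonempty
    exact ⟨b, by rw [hb.1.1, ha]⟩

theorem TD.Br.infinite_dep {T : TD U} (h : T.Br) (n : ℕ) : {a | T.dep a = n + 1}.Infinite := by
  obtain ⟨a, ha⟩ := h.exists_dep n
  refine (h a 0).mono ?_
  rintro b ⟨hb, _⟩
  show T.dep b = n + 1
  rw [hb.1, ha]

theorem snd_finite {p : Set (U × V)} (h : p.Finite) : {b | ∃ a, (a, b) ∈ p}.Finite := by
  have : {b | ∃ a, (a, b) ∈ p} = Prod.snd '' p := by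
    ext b
    constructor
    · rintro ⟨a, ha⟩
      exact ⟨(a, b), ha, rfl⟩
    · rintro ⟨⟨a, b'⟩, ha, rfl⟩
      exact ⟨a, ha⟩
  rw [this]
  exact h.image _

theorem Sys.forth {T : TD U} {T' : TD V} (hV : T'.Br) {D : ℕ} {p : Set (U × V)}
    (h : Sys T T' D p) (a : U) : ∃ b, ∃ p', Sys T T' D p' ∧ p ⊆ p' ∧ (a, b) ∈ p' := by
  classical
  -- induct on the depth
  suffices H : ∀ n (a : U) (p : Set (U × V)), T.dep a = n → Sys T T' D p →
      ∃ b, ∃ p', Sys T T' D p' ∧ p ⊆ p' ∧ (a, b) ∈ p' from H _ a p rfl h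
  intro n
  induction n with
  | zero =>
    intro a p ha hp
    refine ⟨T'.root, p, hp, subset_rfl, ?_⟩
    rw [T.root_of a ha]
    exact hp.root
  | succ n ih =>
    intro a p ha hp
    by_cases hD : n + 1 ≤ D
    · obtain ⟨b0, p1, hp1, hsub, hab⟩ := ih (T.par a) p (T.dep_par a n ha) hp
      by_cases hex : ∃ b, (a, b) ∈ p1
      · obtain ⟨b, hb⟩ := hex
        exact ⟨b, p1, hp1, hsub, hb⟩
      · -- choose colour
        have hcol : ∃ j, ∀ c < D, (T.col a = some c ↔ some j = some c) := by
          rcases hc : T.col a with _ | c0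
          · refine ⟨D, fun c hc => ?_⟩
            simp only [reduceCtorEq, Option.some.injEq, false_iff]
            omega
          · by_cases hc0 : c0 < D
            · exact ⟨c0, fun c _ => Iff.rfl⟩
            · refine ⟨D, fun c hc => ?_⟩
              simp only [Option.some.injEq]
              omega
        obtain ⟨j, hj⟩ := hcol
        obtain ⟨b, hb, hbn⟩ := (hV b0 j).exists_notMem_finite (snd_finite hp1.fin)
        have hd0 : T.dep (T.par a) = T'.dep b0 :=
          hp1.dep _ _ hab (Or.inl (by rw [T.dep_par a n ha]; omega))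
        have hdb : T'.dep b = n + 1 := by
          rw [hb.1.1, ← hd0, T.dep_par a n ha]
        refine ⟨b, insert (a, b) p1, ?_, fun q hq => Or.inr (hsub hq), Or.inl rfl⟩
        refine ⟨hp1.fin.insert _, Or.inr hp1.root, ?_, ?_, ?_, ?_⟩
        · rintro x y x' y' (hx | hx) (hx' | hx')
          · simp only [Prod.mk.injEq] at hx hx'
            simp [hx.1, hx.2, hx'.1, hx'.2]
          · simp only [Prod.mk.injEq] at hx
            obtain ⟨rfl, rfl⟩ := hx
            constructor
            · rintro rfl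
              exact absurd ⟨_, hx'⟩ hex
            · rintro rfl
              exact absurd ⟨_, hx'⟩ hbn
          · simp only [Prod.mk.injEq] at hx'
            obtain ⟨rfl, rfl⟩ := hx'
            constructor
            · rintro rfl
              exact absurd ⟨_, hx⟩ hex
            · rintro rfl
              exact absurd ⟨_, hx⟩ hbn
          · exact hp1.eq _ _ _ _ hx hx'
        · rintro x y (hx | hx) hd
          · simp only [Prod.mk.injEq] at hx
            obtain ⟨rfl, rfl⟩ := hx
            rw [ha, hdb]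
          · exact hp1.dep _ _ hx hd
        · rintro x y m (hx | hx) hm hmD
          · simp only [Prod.mk.injEq] at hx
            obtain ⟨rfl, rfl⟩ := hx
            rw [hb.1.2]
            exact Or.inr hab
          · exact Or.inr (hp1.par _ _ _ hx hm hmD)
        · rintro x y (hx | hx) h1 h2 c hc
          · simp only [Prod.mk.injEq] at hx
            obtain ⟨rfl, rfl⟩ := hx
            rw [hb.2]
            exact hj c hc
          · exact hp1.col _ _ hx h1 h2 c hc
    · by_cases hex : ∃ b, (a, b) ∈ p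
      · obtain ⟨b, hb⟩ := hex
        exact ⟨b, p, hp, subset_rfl, hb⟩
      · obtain ⟨b, hb, hbn⟩ := (hV.infinite_dep D).exists_notMem_finite (snd_finite hp.fin)
        change T'.dep b = D + 1 at hb
        refine ⟨b, insert (a, b) p, ?_, fun q hq => Or.inr hq, Or.inl rfl⟩
        refine ⟨hp.fin.insert _, Or.inr hp.root, ?_, ?_, ?_, ?_⟩
        · rintro x y x' y' (hx | hx) (hx' | hx')
          · simp only [Prod.mk.injEq] at hx hx'
            simp [hx.1, hx.2, hx'.1, hx'.2]
          · simp only [Prod.mk.injEq] at hx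
            obtain ⟨rfl, rfl⟩ := hx
            constructor
            · rintro rfl
              exact absurd ⟨_, hx'⟩ hex
            · rintro rfl
              exact absurd ⟨_, hx'⟩ hbn
          · simp only [Prod.mk.injEq] at hx'
            obtain ⟨rfl, rfl⟩ := hx'
            constructor
            · rintro rfl
              exact absurd ⟨_, hx⟩ hex
            · rintro rfl
              exact absurd ⟨_, hx⟩ hbn
          · exact hp.eq _ _ _ _ hx hx'
        · rintro x y (hx | hx) hd
          · simp only [Prod.mk.injEq] at hx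
            obtain ⟨rfl, rfl⟩ := hx
            omega
          · exact hp.dep _ _ hx hd
        · rintro x y m (hx | hx) hm hmD
          · simp only [Prod.mk.injEq] at hx
            obtain ⟨rfl, rfl⟩ := hx
            omega
          · exact Or.inr (hp.par _ _ _ hx hm hmD)
        · rintro x y (hx | hx) h1 h2 c hc
          · simp only [Prod.mk.injEq] at hx
            obtain ⟨rfl, rfl⟩ := hx
            omega
          · exact hp.col _ _ hx h1 h2 c hc

theorem Sys.mono {T : TD U} {T' : TD V} {D E : ℕ} {p : Set (U × V)} (hDE : D ≤ E)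
    (h : Sys T T' E p) : Sys T T' D p where
  fin := h.fin
  root := h.root
  eq := h.eq
  dep a b h1 h2 := h.dep a b h1 (h2.imp (fun x => x.trans hDE) (fun x => x.trans hDE))
  par a b n h1 h2 h3 := h.par a b n h1 h2 (h3.trans hDE)
  col a b h1 h2 h3 c hc := h.col a b h1 (h2.trans hDE) h3 c (lt_of_lt_of_le hc hDE)

theorem sys_BF {T : TD U} {T' : TD V} {u : ℕ → (Fin 2 → U) → Bool} {v : ℕ → (Fin 2 → V) → Bool}
    (hu : Rep u T) (hv : Rep v T') (hT : T.Br) (hT' : T'.Br) : BF u v (Sys T T') where
  mono D E p hDE h := h.mono hDE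
  eq D p a b a' b' h1 h2 h3 := h1.eq a b a' b' h2 h3
  rel i := by
    refine ⟨(Nat.unpair i).1 + 1 + (Nat.unpair i).2, fun p a b a' b' hp h1 h2 => ?_⟩
    rw [hu, hv]
    generalize (Nat.unpair i).1 = d at *
    generalize (Nat.unpair i).2 = c at *
    unfold TD.E
    have e1 : (T.dep a = d ↔ T'.dep b = d) := by
      constructor
      · intro h
        rw [← hp.dep a b h1 (Or.inl (by omega))]
        exact h
      · intro h
        rw [hp.dep a b h1 (Or.inr (by omega))]
        exact h
    have e2 : (T.dep a' = d + 1 ↔ T'.dep b' = d + 1) := by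
      constructor
      · intro h
        rw [← hp.dep a' b' h2 (Or.inl (by omega))]
        exact h
      · intro h
        rw [hp.dep a' b' h2 (Or.inr (by omega))]
        exact h
    rw [e1, e2]
    by_cases h3 : T'.dep b' = d + 1
    · have h4 : T.dep a' = d + 1 := e2.2 h3
      have e3 : (T.par a' = a ↔ T'.par b' = b) :=
        hp.eq _ _ _ _ (hp.par a' b' d h2 h4 (by omega)) h1
      have e4 : (∀ j, c = j + 1 → T.col a' = some j) ↔ (∀ j, c = j + 1 → T'.col b' = some j) := by
        constructor
        · intro h j hj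
          exact (hp.col a' b' h2 (by omega) (by omega) j (by omega)).1 (h j hj)
        · intro h j hj
          exact (hp.col a' b' h2 (by omega) (by omega) j (by omega)).2 (h j hj)
      rw [e3, e4]
    · tauto
  forth D p a h := h.forth hT' a
  back D p b h := by
    obtain ⟨a, p', hp', hsub, hab⟩ := h.swap.forth hT b
    exact ⟨a, {q | (q.2, q.1) ∈ p'}, hp'.swap, fun q hq => hsub hq, hab⟩

/-- Embeddings of coloured trees. -/
structure TD.Emb (T : TD U) (T' : TD V) (h : U → V) : Prop where
  inj : Function.Injective h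
  root : h T.root = T'.root
  dep : ∀ a, T'.dep (h a) = T.dep a
  par : ∀ a, T.dep a ≠ 0 → T'.par (h a) = h (T.par a)
  col : ∀ a, T.dep a ≠ 0 → T'.col (h a) = T.col a

theorem exists_closed (T : TD U) (s : Finset U) : ∃ t : Finset U, s ⊆ t ∧ T.root ∈ t ∧
    ∀ a ∈ t, T.dep a ≠ 0 → T.par a ∈ t := by
  classical
  induction s using Finset.induction_on with
  | empty =>
    refine ⟨{T.root}, Finset.empty_subset _, Finset.mem_singleton_self _, ?_⟩
    intro a ha h
    rw [Finset.mem_singleton.1 ha, T.dep_root] at h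
    exact absurd rfl h
  | insert a s _ ih =>
    obtain ⟨t, hst, hr, ht⟩ := ih
    suffices H : ∀ n (a : U), T.dep a = n → ∃ t' : Finset U, t ⊆ t' ∧ a ∈ t' ∧
        ∀ b ∈ t', T.dep b ≠ 0 → T.par b ∈ t' by
      obtain ⟨t', h1, h2, h3⟩ := H _ a rfl
      refine ⟨t', ?_, h1 hr, h3⟩
      intro b hb
      rcases Finset.mem_insert.1 hb with rfl | hb
      · exact h2
      · exact h1 (hst hb)
    intro n
    induction n with
    | zero =>
      intro a ha
      refine ⟨t, subset_rfl, ?_, ht⟩
      rw [T.root_of a ha]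
      exact hr
    | succ n ih =>
      intro a ha
      obtain ⟨t', h1, h2, h3⟩ := ih (T.par a) (T.dep_par a n ha)
      refine ⟨insert a t', fun b hb => Finset.mem_insert_of_mem (h1 hb),
        Finset.mem_insert_self _ _, ?_⟩
      intro b hb hb0
      rcases Finset.mem_insert.1 hb with rfl | hb
      · exact Finset.mem_insert_of_mem h2
      · exact Finset.mem_insert_of_mem (h3 b hb hb0)

theorem TD.Emb.elementary {T : TD U} {T' : TD V} {u : ℕ → (Fin 2 → U) → Bool}
    {v : ℕ → (Fin 2 → V) → Bool} (hu : Rep u T) (hv : Rep v T') (hT : T.Br) (hT' : T'.Br)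
    {h : U → V} (hh : T.Emb T' h) :
    Nonempty (@FirstOrder.Language.ElementaryEmbedding Lg U V (St U u) (St V v)) := by
  refine (sys_BF hu hv hT hT').elementary h fun D s => ?_
  obtain ⟨t, hst, hr, ht⟩ := exists_closed T s
  refine ⟨(fun a => (a, h a)) '' (t : Set U), ?_, fun a ha => ⟨a, hst ha, rfl⟩⟩
  have hm : ∀ a b, (a, b) ∈ (fun a => (a, h a)) '' (t : Set U) ↔ a ∈ t ∧ b = h a := by
    intro a b
    constructor
    · rintro ⟨x, hx, he⟩
      simp only [Prod.mk.injEq] at he
      obtain ⟨rfl, rfl⟩ := he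
      exact ⟨hx, rfl⟩
    · rintro ⟨h1, rfl⟩
      exact ⟨a, h1, rfl⟩
  refine ⟨t.finite_toSet.image _, ?_, ?_, ?_, ?_, ?_⟩
  · rw [hm]
    exact ⟨hr, hh.root.symm⟩
  · intro a b a' b' h1 h2
    rw [hm] at h1 h2
    rw [h1.2, h2.2]
    exact hh.inj.eq_iff.symm
  · intro a b h1 _
    rw [hm] at h1
    rw [h1.2, hh.dep]
  · intro a b n h1 h2 _
    rw [hm] at h1 ⊢
    refine ⟨ht a h1.1 (by omega), ?_⟩
    rw [h1.2]
    exact hh.par a (by omega)
  · intro a b h1 _ h3 c _
    rw [hm] at h1
    rw [h1.2, hh.col a h3]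

/-- Systems of distinct representatives for infinite sets. -/
theorem exists_sdr {V : Type} (A : ℕ → Set V) (hA : ∀ n, (A n).Infinite) :
    ∃ f : ℕ → V, Function.Injective f ∧ ∀ n, f n ∈ A n := by
  classical
  have step : ∀ n (g : (m : ℕ) → m < n → V), ∃ y, y ∈ A n ∧ ∀ m hm, g m hm ≠ y := by
    intro n g
    obtain ⟨y, hy, hyn⟩ := (hA n).exists_notMem_finset
      (Finset.univ.image (fun i : Fin n => g i i.2))
    refine ⟨y, hy, fun m hm he => hyn ?_⟩
    rw [Finset.mem_image]
    exact ⟨⟨m, hm⟩, Finset.mem_univ _, he⟩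
  choose F hF1 hF2 using step
  let f : ℕ → V := fun n => Nat.strongRecOn n (fun n ih => F n ih)
  have hf : ∀ n, f n = F n (fun m _ => f m) := by
    intro n
    exact Nat.strongRecOn_eq _ _
  refine ⟨f, ?_, fun n => by rw [hf]; exact hF1 _ _⟩
  have hlt : ∀ m n, m < n → f m ≠ f n := by
    intro m n hmn
    rw [hf n]
    exact hF2 n (fun m _ => f m) m hmn
  intro m n he
  rcases lt_trichotomy m n with h | h | h
  · exact absurd he (hlt m n h)
  · exact h
  · exact absurd he.symm (hlt n m h)

/-- Construction of embeddings from a relation with infinitely many choices at each step. -/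
theorem exists_emb (T T' : TD ℕ) (r : ℕ → ℕ → Prop) (h0 : r T.root T'.root)
    (hs : ∀ a a', r a a' → ∀ b, T.Ch a b → {b' | T'.Ch a' b' ∧ T'.col b' = T.col b ∧ r b b'}.Infinite) :
    ∃ h : ℕ → ℕ, T.Emb T' h := by
  classical
  have key : ∀ a a', r a a' → ∃ j : ℕ → ℕ, Function.Injective j ∧
      ∀ b, T.Ch a b → T'.Ch a' (j b) ∧ T'.col (j b) = T.col b ∧ r b (j b) := by
    intro a a' haa
    obtain ⟨j, hj, hj2⟩ := exists_sdr
      (fun b => {b' | T.Ch a b → (T'.Ch a' b' ∧ T'.col b' = T.col b ∧ r b b')}) (by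
        intro b
        by_cases hb : T.Ch a b
        · exact (hs a a' haa b hb).mono fun b' hb' _ => hb'
        · exact Set.infinite_univ.mono fun b' _ h => absurd h hb)
    exact ⟨j, hj, fun b hb => hj2 b hb⟩
  choose! J hJ1 hJ2 using key
  let H : ℕ → ℕ → ℕ := fun n => Nat.rec (fun _ => T'.root)
    (fun _ ih b => J (T.par b) (ih (T.par b)) b) n
  have H0 : ∀ b, H 0 b = T'.root := fun b => rfl
  have HS : ∀ n b, H (n + 1) b = J (T.par b) (H n (T.par b)) b := fun n b => rfl
  have main : ∀ n b, T.dep b = n → r b (H n b) ∧ T'.dep (H n b) = n ∧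
      (n ≠ 0 → T'.par (H n b) = H (n - 1) (T.par b) ∧ T'.col (H n b) = T.col b) := by
    intro n
    induction n with
    | zero =>
      intro b hb
      rw [H0, T.root_of b hb]
      exact ⟨h0, T'.dep_root, fun h => absurd rfl h⟩
    | succ n ih =>
      intro b hb
      have hp : T.dep (T.par b) = n := T.dep_par b n hb
      obtain ⟨i1, i2, _⟩ := ih (T.par b) hp
      have hch : T.Ch (T.par b) b := ⟨by rw [hb, hp], rfl⟩
      obtain ⟨k1, k2, k3⟩ := hJ2 _ _ i1 b hch
      rw [HS]
      refine ⟨k3, ?_, fun _ => ⟨?_, k2⟩⟩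
      · rw [k1.1, i2]
      · rw [k1.2]
        rfl
  refine ⟨fun b => H (T.dep b) b, ?_, ?_, ?_, ?_, ?_⟩
  · have hinj : ∀ n b b', T.dep b = n → T.dep b' = n → H n b = H n b' → b = b' := by
      intro n
      induction n with
      | zero =>
        intro b b' h1 h2 _
        rw [T.root_of b h1, T.root_of b' h2]
      | succ n ih =>
        intro b b' h1 h2 he
        have e1 := ((main _ b h1).2.2 (by omega)).1
        have e2 := ((main _ b' h2).2.2 (by omega)).1
        rw [he, e2] at e1
        simp only [Nat.add_sub_cancel] at e1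
        have e3 : T.par b' = T.par b := ih _ _ (T.dep_par _ _ h2) (T.dep_par _ _ h1) e1
        rw [HS, HS, e3] at he
        exact hJ1 _ _ (main n (T.par b) (T.dep_par _ _ h1)).1 he
    intro b b' he
    change H (T.dep b) b = H (T.dep b') b' at he
    have e1 := (main _ b rfl).2.1
    have e2 := (main _ b' rfl).2.1
    rw [he, e2] at e1
    exact hinj (T.dep b) b b' rfl e1 (by rw [he, e1])
  · show H (T.dep T.root) T.root = T'.root
    rw [T.dep_root, H0]
  · intro b
    exact (main _ b rfl).2.1
  · intro b hb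
    show T'.par (H (T.dep b) b) = H (T.dep (T.par b)) (T.par b)
    rw [((main _ b rfl).2.2 hb).1]
    obtain ⟨n, hn⟩ := Nat.exists_eq_succ_of_ne_zero hb
    rw [T.dep_par b n hn, hn]
    rfl
  · intro b hb
    exact ((main _ b rfl).2.2 hb).2

end Pool.Agent.H565.AQ
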